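import Pool.Agent.H189R2.Tau.Zeros

/-! On a bounded interval free of the zeros of finitely many derived functions, an exponential sum is
comparable to a polynomial times an exponential. -/

set_option autoImplicit false

namespace Pool.Agent.H189R2.Tau

open Finset
open Polynomial (eval derivative C eval_add eval_mul eval_C eval_sub)

/-- on `(a,b)` the function `|f|` is comparable, up to the factor `exp κ`, to
`A(u) exp(β u)` with a positive polynomial `A` of degree at most `d` -/
def Mdl (f : ℝ → ℝ) (a b : ℝ) (d : ℕ) (β κ : ℝ) : Prop :=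
  ∃ (A : Polynomial ℝ) (m : ℝ), A.natDegree ≤ d ∧ 0 < m ∧ ∀ u ∈ Set.Ioo a b, 0 < A.eval u ∧
    m * (A.eval u * Real.exp (β * u)) ≤ |f u| ∧
    |f u| ≤ Real.exp κ * (m * (A.eval u * Real.exp (β * u)))

theorem exists_antideriv (B : Polynomial ℝ) :
    ∃ Q : Polynomial ℝ, derivative Q = B ∧ Q.natDegree ≤ B.natDegree + 1 := by
  have h : ∀ B : Polynomial ℝ, ∃ Q : Polynomial ℝ, derivative Q = B := by
    intro B
    induction B using Polynomial.induction_on' with
    | add p q hp hq =>
      obtain ⟨P, rfl⟩ := hp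
      obtain ⟨Q, rfl⟩ := hq
      exact ⟨P + Q, by simp⟩
    | monomial n a =>
      refine ⟨Polynomial.monomial (n + 1) (a / (n + 1)), ?_⟩
      rw [Polynomial.derivative_monomial]
      simp only [Nat.add_sub_cancel]
      congr 1
      push_cast
      field_simp
  obtain ⟨Q, hQ⟩ := h B
  refine ⟨Q, hQ, ?_⟩
  have := Polynomial.natDegree_derivative Q
  rw [hQ] at this
  omega

/-- a function with continuous sign: nonvanishing on an interval means constant sign -/
theorem sign_const {f : ℝ → ℝ} {a b : ℝ} (hf : ContinuousOn f (Set.Ioo a b))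
    (h : ∀ u ∈ Set.Ioo a b, f u ≠ 0) :
    (∀ u ∈ Set.Ioo a b, 0 < f u) ∨ (∀ u ∈ Set.Ioo a b, f u < 0) := by
  by_contra hcon
  push Not at hcon
  obtain ⟨⟨x, hx, hx0⟩, ⟨y, hy, hy0⟩⟩ := hcon
  have hx' : f x < 0 := lt_of_le_of_ne hx0 (h x hx)
  have hy' : 0 < f y := lt_of_le_of_ne hy0 (h y hy).symm
  have hconn : IsPreconnected (Set.Ioo a b) := isPreconnected_Ioo
  have := hconn.intermediate_value hx hy hf
  obtain ⟨z, hz, hz0⟩ := this (show (0 : ℝ) ∈ Set.Icc (f x) (f y) from ⟨hx'.le, hy'.le⟩)
  exact h z hz hz0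

theorem monotone_aux {H H' : ℝ → ℝ} {a b : ℝ} (hH : ∀ x, HasDerivAt H (H' x) x)
    (h : ∀ u ∈ Set.Ioo a b, 0 ≤ H' u) : MonotoneOn H (Set.Icc a b) := by
  apply monotoneOn_of_deriv_nonneg (convex_Icc a b)
  · exact fun x _ => (hH x).continuousAt.continuousWithinAt
  · intro x _
    exact (hH x).differentiableAt.differentiableWithinAt
  · intro x hx
    rw [interior_Icc] at hx
    rw [(hH x).deriv]
    exact h x hx

/-- integration step for a positive function -/
theorem integ_pos {G G' : ℝ → ℝ} (hG : ∀ x, HasDerivAt G (G' x) x) {a b : ℝ} (hab : a < b)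
    (hpos : ∀ u ∈ Set.Ioo a b, 0 < G u) (hc' : ContinuousOn G' (Set.Ioo a b))
    {B : Polynomial ℝ} {m Γ : ℝ} (hm : 0 < m) (hΓ : 1 ≤ Γ)
    (hB : ∀ u ∈ Set.Ioo a b, 0 < B.eval u ∧ m * B.eval u ≤ |G' u| ∧ |G' u| ≤ Γ * (m * B.eval u)) :
    ∃ A : Polynomial ℝ, A.natDegree ≤ B.natDegree + 1 ∧ ∀ u ∈ Set.Ioo a b, 0 < A.eval u ∧
      m * A.eval u ≤ G u ∧ G u ≤ Γ * (m * A.eval u) := by
  obtain ⟨Q, hQ, hQd⟩ := exists_antideriv B
  have hQ' : ∀ x, HasDerivAt (fun x => Q.eval x) (B.eval x) x := by
    intro x
    have := Q.hasDerivAt x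
    rwa [hQ] at this
  have hGc : Continuous G := continuous_iff_continuousAt.mpr (fun x => (hG x).continuousAt)
  have hne : ∀ u ∈ Set.Ioo a b, G' u ≠ 0 := by
    intro u hu h0
    have := hB u hu
    rw [h0, abs_zero] at this
    have h1 : 0 < m * B.eval u := mul_pos hm this.1
    linarith [this.2.1]
  have hQmono : StrictMonoOn (fun x => Q.eval x) (Set.Icc a b) := by
    apply strictMonoOn_of_deriv_pos (convex_Icc a b)
    · exact fun x _ => (hQ' x).continuousAt.continuousWithinAt
    · intro x hx
      rw [interior_Icc] at hx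
      rw [(hQ' x).deriv]
      exact (hB x hx).1
  have hGa : 0 ≤ G a := by
    have h1 : Set.Icc a b ⊆ closure (Set.Ioo a b) := by rw [closure_Ioo hab.ne]
    have h2 : closure (Set.Ioo a b) ⊆ {x | 0 ≤ G x} :=
      closure_minimal (fun x hx => (hpos x hx).le) (isClosed_le continuous_const hGc)
    exact h2 (h1 ⟨le_refl _, hab.le⟩)
  have hGb : 0 ≤ G b := by
    have h1 : Set.Icc a b ⊆ closure (Set.Ioo a b) := by rw [closure_Ioo hab.ne]
    have h2 : closure (Set.Ioo a b) ⊆ {x | 0 ≤ G x} :=
      closure_minimal (fun x hx => (hpos x hx).le) (isClosed_le continuous_const hGc)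
    exact h2 (h1 ⟨hab.le, le_refl _⟩)
  have hΓ0 : 0 < Γ := by linarith
  rcases sign_const hc' hne with hs | hs
  · -- increasing
    refine ⟨C (G a / (Γ * m) - Q.eval a) + Q, ?_, ?_⟩
    · apply (Polynomial.natDegree_add_le _ _).trans
      simp [hQd]
    · intro u hu
      have h1 : Q.eval a < Q.eval u := hQmono ⟨le_refl _, hab.le⟩ ⟨hu.1.le, hu.2.le⟩ hu.1
      have h2 : MonotoneOn (fun x => G x - m * Q.eval x) (Set.Icc a b) := by
        apply monotone_aux (H' := fun x => G' x - m * B.eval x)
        · intro x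
          exact (hG x).sub ((hQ' x).const_mul m)
        · intro x hx
          have := hB x hx
          rw [abs_of_pos (hs x hx)] at this
          linarith [this.2.1]
      have h3 : MonotoneOn (fun x => Γ * m * Q.eval x - G x) (Set.Icc a b) := by
        apply monotone_aux (H' := fun x => Γ * m * B.eval x - G' x)
        · intro x
          exact ((hQ' x).const_mul (Γ * m)).sub (hG x)
        · intro x hx
          have := hB x hx
          rw [abs_of_pos (hs x hx)] at this
          nlinarith [this.2.2]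
      have h4 := h2 ⟨le_refl _, hab.le⟩ ⟨hu.1.le, hu.2.le⟩ hu.1.le
      have h5 := h3 ⟨le_refl _, hab.le⟩ ⟨hu.1.le, hu.2.le⟩ hu.1.le
      simp only [eval_add, eval_C]
      have h6 : m * (G a / (Γ * m)) = G a / Γ := by field_simp
      have h7 : G a / Γ ≤ G a := div_le_self hGa hΓ
      have h8 : Γ * (m * (G a / (Γ * m))) = G a := by field_simp
      have h9 : 0 ≤ G a / (Γ * m) := by positivity
      refine ⟨by linarith, ?_, ?_⟩
      · nlinarith
      · nlinarith
  · -- decreasing
    refine ⟨C (G b / (Γ * m) + Q.eval b) - Q, ?_, ?_⟩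
    · apply (Polynomial.natDegree_sub_le _ _).trans
      simp [hQd]
    · intro u hu
      have h1 : Q.eval u < Q.eval b := hQmono ⟨hu.1.le, hu.2.le⟩ ⟨hab.le, le_refl _⟩ hu.2
      have h2 : MonotoneOn (fun x => -G x - m * Q.eval x) (Set.Icc a b) := by
        apply monotone_aux (H' := fun x => -G' x - m * B.eval x)
        · intro x
          exact (hG x).neg.sub ((hQ' x).const_mul m)
        · intro x hx
          have := hB x hx
          rw [abs_of_neg (hs x hx)] at this
          linarith [this.2.1]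
      have h3 : MonotoneOn (fun x => Γ * m * Q.eval x + G x) (Set.Icc a b) := by
        apply monotone_aux (H' := fun x => Γ * m * B.eval x + G' x)
        · intro x
          exact ((hQ' x).const_mul (Γ * m)).add (hG x)
        · intro x hx
          have := hB x hx
          rw [abs_of_neg (hs x hx)] at this
          nlinarith [this.2.2]
      have h4 := h2 ⟨hu.1.le, hu.2.le⟩ ⟨hab.le, le_refl _⟩ hu.2.le
      have h5 := h3 ⟨hu.1.le, hu.2.le⟩ ⟨hab.le, le_refl _⟩ hu.2.le
      simp only [eval_sub, eval_C]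
      have h6 : m * (G b / (Γ * m)) = G b / Γ := by field_simp
      have h7 : G b / Γ ≤ G b := div_le_self hGb hΓ
      have h8 : Γ * (m * (G b / (Γ * m))) = G b := by field_simp
      have h9 : 0 ≤ G b / (Γ * m) := by positivity
      refine ⟨by linarith, ?_, ?_⟩
      · nlinarith
      · nlinarith

/-- integration step -/
theorem integ {G G' : ℝ → ℝ} (hG : ∀ x, HasDerivAt G (G' x) x) {a b : ℝ} (hab : a < b)
    (hne : ∀ u ∈ Set.Ioo a b, G u ≠ 0) (hc' : ContinuousOn G' (Set.Ioo a b))
    {B : Polynomial ℝ} {m Γ : ℝ} (hm : 0 < m) (hΓ : 1 ≤ Γ)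
    (hB : ∀ u ∈ Set.Ioo a b, 0 < B.eval u ∧ m * B.eval u ≤ |G' u| ∧ |G' u| ≤ Γ * (m * B.eval u)) :
    ∃ A : Polynomial ℝ, A.natDegree ≤ B.natDegree + 1 ∧ ∀ u ∈ Set.Ioo a b, 0 < A.eval u ∧
      m * A.eval u ≤ |G u| ∧ |G u| ≤ Γ * (m * A.eval u) := by
  have hGc : ContinuousOn G (Set.Ioo a b) := fun x _ => (hG x).continuousAt.continuousWithinAt
  rcases sign_const hGc hne with hs | hs
  · obtain ⟨A, hA, h⟩ := integ_pos hG hab hs hc' hm hΓ hB
    refine ⟨A, hA, fun u hu => ?_⟩
    rw [abs_of_pos (hs u hu)]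
    exact h u hu
  · obtain ⟨A, hA, h⟩ := integ_pos (G := fun x => -G x) (G' := fun x => -G' x)
      (fun x => (hG x).neg) hab (fun u hu => by simpa using hs u hu) hc'.neg hm hΓ
      (fun u hu => by rw [abs_neg]; exact hB u hu)
    refine ⟨A, hA, fun u hu => ?_⟩
    rw [abs_of_neg (hs u hu)]
    exact h u hu

/-- comparison of an exponential sum with a polynomial times an exponential on bounded intervals -/
theorem chain : ∀ (n : ℕ) (s : Finset ℝ) (c : ℝ → ℝ) (hs : s.Nonempty), s.card = n + 1 →
    (∀ l ∈ s, c l ≠ 0) → ∃ Z : Finset ℝ, Z.card ≤ n * (n + 1) ∧ ∀ a b : ℝ, a < b →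
      Disjoint (Set.Ioo a b) (Z : Set ℝ) →
      Mdl (es s c) a b n (s.min' hs) ((s.max' hs - s.min' hs) * (b - a)) := by
  intro n
  induction n with
  | zero =>
    intro s c hs hcard hc
    refine ⟨∅, by simp, ?_⟩
    intro a b hab _
    obtain ⟨l, rfl⟩ := Finset.card_eq_one.mp hcard
    refine ⟨1, |c l|, by simp, abs_pos.mpr (hc l (by simp)), ?_⟩
    intro u _
    simp [es, abs_mul, abs_of_pos (Real.exp_pos _)]
  | succ n ih =>
    intro s c hs hcard hc
    set l₁ := s.min' hs with hl₁
    have hl₁s : l₁ ∈ s := s.min'_mem hs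
    set s' := s.erase l₁ with hs'
    have hcard' : s'.card = n + 1 := by rw [hs', card_erase_of_mem hl₁s, hcard]; rfl
    have hs'ne : s'.Nonempty := by rw [← Finset.card_pos]; omega
    have hc' : ∀ l ∈ s', (fun l => c l * (l - l₁)) l ≠ 0 := by
      intro l hl
      rw [hs', mem_erase] at hl
      exact mul_ne_zero (hc l hl.2) (sub_ne_zero.mpr hl.1)
    obtain ⟨Z', hZ'card, hZ'⟩ := ih s' (fun l => c l * (l - l₁)) hs'ne hcard' hc'
    obtain ⟨Z₀, hZ₀card, hZ₀⟩ := (es_zb hs hc).exists_finset
    refine ⟨Z₀ ∪ Z', ?_, ?_⟩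
    · calc (Z₀ ∪ Z').card ≤ Z₀.card + Z'.card := card_union_le _ _
        _ ≤ (n + 1) + n * (n + 1) := by
            rw [hcard] at hZ₀card
            omega
        _ ≤ (n + 1) * (n + 1 + 1) := by nlinarith
    · intro a b hab hdisj
      rw [coe_union, Set.disjoint_union_right] at hdisj
      obtain ⟨B, m₁, hBd, hm₁, hB⟩ := hZ' a b hab hdisj.2
      -- the twisted function
      set G : ℝ → ℝ := fun u => Real.exp (-l₁ * u) * es s c u with hGdef
      set G' : ℝ → ℝ := fun u => Real.exp (-l₁ * u) * es s' (fun l => c l * (l - l₁)) u with hG'def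
      have hG : ∀ x, HasDerivAt G (G' x) x := by
        intro x
        have h1 := hasDerivAt_twist s (fun l => C (c l)) l₁ x
        have h2 : ep s (fun l => derivative (C (c l)) + C (l - l₁) * C (c l)) x =
            es s' (fun l => c l * (l - l₁)) x := by
          unfold ep es
          rw [hs', ← Finset.add_sum_erase s _ hl₁s]
          simp only [Polynomial.derivative_C, zero_add, sub_self, Polynomial.C_0, zero_mul,
            Polynomial.eval_zero]
          apply sum_congr rfl
          intro l _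
          simp only [eval_mul, eval_C]
          ring
        rw [h2] at h1
        rw [hGdef, hG'def, es_eq_ep s c]
        exact h1
      have hGne : ∀ u ∈ Set.Ioo a b, G u ≠ 0 := by
        intro u hu h0
        have h1 : es s c u = 0 := (mul_eq_zero.mp h0).resolve_left (Real.exp_pos _).ne'
        exact Set.disjoint_left.mp hdisj.1 hu ((hZ₀ u).mpr h1)
      have hG'c : ContinuousOn G' (Set.Ioo a b) := by
        apply Continuous.continuousOn
        exact (Real.continuous_exp.comp (continuous_const.mul continuous_id)).mul (continuous_es _ _)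
      set μ := s'.min' hs'ne with hμ
      set M := s'.max' hs'ne with hM
      have hμ1 : l₁ ≤ μ := s.min'_le _ (erase_subset _ _ (s'.min'_mem hs'ne))
      have hMeq : s.max' hs = M := by
        apply le_antisymm
        · apply Finset.max'_le
          intro l hl
          by_cases hll : l = l₁
          · rw [hll]; exact hμ1.trans (s'.min'_le _ (s'.max'_mem hs'ne))
          · exact s'.le_max' _ (by rw [hs', mem_erase]; exact ⟨hll, hl⟩)
        · exact s.le_max' _ (erase_subset _ _ (s'.max'_mem hs'ne))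
      set Γ := Real.exp ((s.max' hs - l₁) * (b - a)) with hΓdef
      have hba : 0 ≤ b - a := by linarith
      have hlM : l₁ ≤ s.max' hs := s.min'_le _ (s.max'_mem hs)
      have hΓ : 1 ≤ Γ := by
        rw [hΓdef]
        exact Real.one_le_exp (mul_nonneg (by linarith) hba)
      -- comparison for G'
      set m' := m₁ * Real.exp ((μ - l₁) * a) with hm'
      have hm'pos : 0 < m' := mul_pos hm₁ (Real.exp_pos _)
      have hcomp : ∀ u ∈ Set.Ioo a b, 0 < B.eval u ∧ m' * B.eval u ≤ |G' u| ∧
          |G' u| ≤ Γ * (m' * B.eval u) := by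
        intro u hu
        obtain ⟨h1, h2, h3⟩ := hB u hu
        refine ⟨h1, ?_, ?_⟩
        · rw [hG'def]
          simp only
          rw [abs_mul, abs_of_pos (Real.exp_pos _)]
          calc m' * B.eval u = m₁ * B.eval u * Real.exp ((μ - l₁) * a) := by rw [hm']; ring
            _ ≤ m₁ * B.eval u * Real.exp ((μ - l₁) * u) := by
                apply mul_le_mul_of_nonneg_left _ (by positivity)
                apply Real.exp_le_exp.mpr
                exact mul_le_mul_of_nonneg_left hu.1.le (by linarith)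
            _ = Real.exp (-l₁ * u) * (m₁ * (B.eval u * Real.exp (μ * u))) := by
                rw [show (μ - l₁) * u = -l₁ * u + μ * u by ring, Real.exp_add]; ring
            _ ≤ _ := mul_le_mul_of_nonneg_left h2 (Real.exp_pos _).le
        · rw [hG'def]
          simp only
          rw [abs_mul, abs_of_pos (Real.exp_pos _)]
          calc _ ≤ Real.exp (-l₁ * u) * (Real.exp ((M - μ) * (b - a)) *
                (m₁ * (B.eval u * Real.exp (μ * u)))) := mul_le_mul_of_nonneg_left h3 (Real.exp_pos _).le
            _ = m₁ * B.eval u * (Real.exp ((M - μ) * (b - a)) * Real.exp ((μ - l₁) * u)) := by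
                rw [show (μ - l₁) * u = -l₁ * u + μ * u by ring, Real.exp_add]; ring
            _ ≤ m₁ * B.eval u * (Γ * Real.exp ((μ - l₁) * a)) := by
                apply mul_le_mul_of_nonneg_left _ (by positivity)
                rw [hΓdef, ← Real.exp_add, ← Real.exp_add]
                apply Real.exp_le_exp.mpr
                rw [hMeq]
                have h4 : (μ - l₁) * u ≤ (μ - l₁) * b :=
                  mul_le_mul_of_nonneg_left hu.2.le (by linarith)
                nlinarith
            _ = Γ * (m' * B.eval u) := by rw [hm']; ring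
      obtain ⟨A, hAd, hA⟩ := integ hG hab hGne hG'c hm'pos hΓ hcomp
      refine ⟨A, m', hAd.trans (by omega), hm'pos, ?_⟩
      intro u hu
      obtain ⟨h1, h2, h3⟩ := hA u hu
      have h4 : |G u| = Real.exp (-l₁ * u) * |es s c u| := by
        rw [hGdef]
        simp only
        rw [abs_mul, abs_of_pos (Real.exp_pos _)]
      have h5 : |es s c u| = Real.exp (l₁ * u) * |G u| := by
        rw [h4, ← mul_assoc, ← Real.exp_add]
        simp
      refine ⟨h1, ?_, ?_⟩
      · rw [h5]
        calc m' * (A.eval u * Real.exp (l₁ * u)) = Real.exp (l₁ * u) * (m' * A.eval u) := by ring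
          _ ≤ _ := mul_le_mul_of_nonneg_left h2 (Real.exp_pos _).le
      · rw [h5]
        calc Real.exp (l₁ * u) * |G u| ≤ Real.exp (l₁ * u) * (Γ * (m' * A.eval u)) :=
              mul_le_mul_of_nonneg_left h3 (Real.exp_pos _).le
          _ = Γ * (m' * (A.eval u * Real.exp (l₁ * u))) := by ring

end Pool.Agent.H189R2.Tau
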