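import Pool.Agent.H189R2.Tau.Integral

/-! Expected number of zeros of a random linear combination of `C¹` functions. -/

set_option autoImplicit false

namespace Pool.Agent.H189R2.Tau

open Finset MeasureTheory Filter
open scoped ENNReal Topology

variable {k : ℕ}

/-- coefficient vectors for which the combination vanishes somewhere on `J` -/
def E (P : Fin k → ℝ → ℝ) (J : Set ℝ) : Set (Fin k → ℝ) := {c | ∃ u ∈ J, ∑ i, c i * P i u = 0}

theorem isClosed_E {P : Fin k → ℝ → ℝ} (hP : ∀ i, Continuous (P i)) {J : Set ℝ}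
    (hJ : IsCompact J) : IsClosed (E P J) := by
  have : CompactSpace J := isCompact_iff_compactSpace.mp hJ
  have h1 : IsClosed {p : (Fin k → ℝ) × J | ∑ i, p.1 i * P i p.2 = 0} := by
    apply isClosed_eq _ continuous_const
    apply continuous_finsetSum
    intro i _
    exact ((continuous_apply i).comp continuous_fst).mul
      ((hP i).comp (continuous_subtype_val.comp continuous_snd))
  have h2 := isClosedMap_fst_of_compactSpace _ h1
  convert h2 using 1
  ext c
  simp only [E, Set.mem_ofPred_eq, Set.mem_image, Prod.exists, Subtype.exists]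
  constructor
  · rintro ⟨u, hu, h⟩
    exact ⟨c, u, hu, h, rfl⟩
  · rintro ⟨c', u, hu, h, rfl⟩
    exact ⟨u, hu, h⟩

theorem pi_update (ν : Fin k → Measure ℝ) [∀ i, IsProbabilityMeasure (ν i)] (i : Fin k)
    {f : (Fin k → ℝ) → ℝ≥0∞} (hf : Measurable f) :
    ∫⁻ x, f x ∂Measure.pi ν = ∫⁻ x, ∫⁻ y, f (Function.update x i y) ∂ν i ∂Measure.pi ν := by
  have hmeas : Measurable (fun p : (Fin k → ℝ) × ℝ => Function.update p.1 i p.2) := by
    rw [measurable_pi_iff]
    intro j
    by_cases hj : j = i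
    · subst hj
      simpa using measurable_snd
    · simp only [Function.update_of_ne hj]
      exact (measurable_pi_apply j).comp measurable_fst
  have h : Measure.pi ν =
      ((Measure.pi ν).prod (ν i)).map (fun p => Function.update p.1 i p.2) := by
    apply Measure.pi_eq
    intro s hs
    rw [Measure.map_apply hmeas (MeasurableSet.univ_pi hs)]
    have : (fun p : (Fin k → ℝ) × ℝ => Function.update p.1 i p.2) ⁻¹' (Set.univ.pi s) =
        (Set.univ.pi (Function.update s i Set.univ)) ×ˢ (s i) := by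
      ext ⟨x, y⟩
      simp only [Set.mem_preimage, Set.mem_univ_pi, Set.mem_prod]
      constructor
      · intro h
        refine ⟨fun j => ?_, by simpa using h i⟩
        by_cases hj : j = i
        · subst hj; simp
        · have := h j
          simpa [Function.update_of_ne hj] using this
      · rintro ⟨h1, h2⟩ j
        by_cases hj : j = i
        · subst hj; simpa using h2
        · have := h1 j
          simpa [Function.update_of_ne hj] using this
    rw [this, Measure.prod_prod, Measure.pi_pi,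
      ← Finset.prod_erase_mul univ (fun j => ν j (Function.update s i Set.univ j)) (mem_univ i),
      ← Finset.prod_erase_mul univ (fun j => ν j (s j)) (mem_univ i)]
    rw [Function.update_self, measure_univ, mul_one]
    congr 1
    apply prod_congr rfl
    intro j hj
    rw [Function.update_of_ne (ne_of_mem_erase hj)]
  conv_lhs => rw [h]
  rw [lintegral_map hf hmeas]
  exact lintegral_prod (fun p : (Fin k → ℝ) × ℝ => f (Function.update p.1 i p.2))
    (hf.comp hmeas).aemeasurable

theorem measurable_om {P P' Q Q' : ℝ → ℝ} (hP : Continuous P) (hP' : Continuous P')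
    (hQ : Continuous Q) (hQ' : Continuous Q') : Measurable (om P P' Q Q') := by
  unfold om
  exact ((hP'.mul hQ).sub (hP.mul hQ')).abs.measurable.div
    ((hP.pow 2).add (hQ.pow 2)).measurable

theorem sector {ν : Fin k → Measure ℝ} [∀ i, IsProbabilityMeasure (ν i)] {A B : ℝ≥0∞}
    (hA : ∀ i, ν i ≤ A • volume) (hB : ∀ i, ∫⁻ x, ENNReal.ofReal |x| ∂ν i ≤ B)
    {P P' : Fin k → ℝ → ℝ} (hP : ∀ i u, HasDerivAt (P i) (P' i u) u)
    (hP' : ∀ i, Continuous (P' i)) {J : Set ℝ} (hJ : IsCompact J) (i₀ : Fin k)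
    (h0 : ∀ u ∈ J, P i₀ u ≠ 0) (hle : ∀ u ∈ J, ∀ j, |P j u| ≤ |P i₀ u|) :
    Measure.pi ν (E P J) ≤
      A * (B * (2 * ∑ j, ∫⁻ u in J, ENNReal.ofReal (om (P j) (P' j) (P i₀) (P' i₀) u))) := by
  have hPc : ∀ i, Continuous (P i) :=
    fun i => continuous_iff_continuousAt.mpr (fun u => (hP i u).continuousAt)
  have hEm : MeasurableSet (E P J) := (isClosed_E hPc hJ).measurableSet
  have hom : ∀ j, Measurable (fun u => ENNReal.ofReal (om (P j) (P' j) (P i₀) (P' i₀) u)) :=
    fun j => (measurable_om (hPc j) (hP' j) (hPc i₀) (hP' i₀)).ennreal_ofReal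
  set I : Fin k → ℝ≥0∞ := fun j =>
    ∫⁻ u in J, ENNReal.ofReal (om (P j) (P' j) (P i₀) (P' i₀) u) with hI
  rw [← lintegral_indicator_one hEm, pi_update ν i₀ (measurable_one.indicator hEm)]
  -- the section
  have hsec : ∀ x : Fin k → ℝ, ∫⁻ y, (E P J).indicator 1 (Function.update x i₀ y) ∂ν i₀ ≤
      A * ∑ j, ENNReal.ofReal |x j| * (2 * I j) := by
    intro x
    set z : Fin k → ℝ := Function.update x i₀ 0 with hz
    set φ : ℝ → ℝ := fun u => -((∑ j, z j * P j u) / P i₀ u) with hφ
    set φ' : ℝ → ℝ := fun u =>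
      -(((∑ j, z j * P' j u) * P i₀ u - (∑ j, z j * P j u) * P' i₀ u) / P i₀ u ^ 2) with hφ'
    have hsum : ∀ y u, ∑ j, Function.update x i₀ y j * P j u = y * P i₀ u + ∑ j, z j * P j u := by
      intro y u
      rw [← Finset.add_sum_erase univ _ (mem_univ i₀),
        ← Finset.add_sum_erase univ (fun j => z j * P j u) (mem_univ i₀)]
      rw [Function.update_self]
      have h1 : z i₀ = 0 := by rw [hz, Function.update_self]
      rw [h1, zero_mul, zero_add]
      congr 1
      apply sum_congr rfl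
      intro j hj
      rw [hz, Function.update_of_ne (ne_of_mem_erase hj), Function.update_of_ne (ne_of_mem_erase hj)]
    have hset : {y | Function.update x i₀ y ∈ E P J} = φ '' J := by
      ext y
      simp only [E, Set.mem_ofPred_eq, Set.mem_image]
      constructor
      · rintro ⟨u, hu, h⟩
        refine ⟨u, hu, ?_⟩
        rw [hsum] at h
        have h1 := h0 u hu
        simp only [hφ]
        field_simp
        linarith
      · rintro ⟨u, hu, h⟩
        refine ⟨u, hu, ?_⟩
        rw [hsum, ← h]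
        have h1 := h0 u hu
        simp only [hφ]
        field_simp
        ring
    have hmeasy : Measurable (fun y : ℝ => Function.update x i₀ y) := measurable_update x
    have hSm : MeasurableSet {y | Function.update x i₀ y ∈ E P J} := hmeasy hEm
    have hint : ∫⁻ y, (E P J).indicator 1 (Function.update x i₀ y) ∂ν i₀ =
        ν i₀ {y | Function.update x i₀ y ∈ E P J} := by
      rw [← lintegral_indicator_one hSm]
      rfl
    rw [hint, hset]
    have hder : ∀ u ∈ J, HasDerivAt φ (φ' u) u := by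
      intro u hu
      have h1 : HasDerivAt (fun u => ∑ j, z j * P j u) (∑ j, z j * P' j u) u := by
        apply HasDerivAt.fun_sum
        intro j _
        exact (hP j u).const_mul (z j)
      exact (h1.fun_div (hP i₀ u) (h0 u hu)).neg
    have hvol : volume (φ '' J) ≤ ∫⁻ u in J, ENNReal.ofReal |φ' u| := by
      have := addHaar_image_le_lintegral_abs_det_fderiv volume hJ.measurableSet
        (f := φ) (f' := fun u => (ContinuousLinearMap.smulRight (1 : ℝ →L[ℝ] ℝ) (φ' u)))
        (fun u hu => (hder u hu).hasFDerivAt.hasFDerivWithinAt)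
      simpa using this
    have hφb : ∀ u ∈ J, |φ' u| ≤ ∑ j, |x j| * (2 * om (P j) (P' j) (P i₀) (P' i₀) u) := by
      intro u hu
      have h1 := h0 u hu
      have h2 : φ' u = -∑ j, z j * ((P' j u * P i₀ u - P j u * P' i₀ u) / P i₀ u ^ 2) := by
        simp only [hφ']
        rw [sum_mul, sum_mul, ← sum_sub_distrib, sum_div]
        congr 1
        apply sum_congr rfl
        intro j _
        ring
      rw [h2, abs_neg]
      refine (abs_sum_le_sum_abs _ _).trans (sum_le_sum fun j _ => ?_)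
      rw [abs_mul]
      apply mul_le_mul _ _ (abs_nonneg _) (abs_nonneg _)
      · rw [hz]
        by_cases hj : j = i₀
        · subst hj; simp
        · rw [Function.update_of_ne hj]
      · rw [abs_div, abs_of_pos (by positivity : 0 < P i₀ u ^ 2)]
        unfold om
        have h3 : 0 < P i₀ u ^ 2 := by positivity
        have h4 : P j u ^ 2 + P i₀ u ^ 2 ≤ 2 * P i₀ u ^ 2 := by
          have := sq_le_sq.mpr (hle u hu j)
          linarith
        have h5 : 0 < P j u ^ 2 + P i₀ u ^ 2 := by positivity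
        rw [← mul_div_assoc, div_le_div_iff₀ h3 h5]
        have h6 := abs_nonneg (P' j u * P i₀ u - P j u * P' i₀ u)
        nlinarith
    calc ν i₀ (φ '' J) ≤ (A • volume) (φ '' J) := hA i₀ _
      _ = A * volume (φ '' J) := by simp
      _ ≤ A * ∑ j, ENNReal.ofReal |x j| * (2 * I j) := by
          gcongr
          refine hvol.trans ?_
          calc ∫⁻ u in J, ENNReal.ofReal |φ' u|
              ≤ ∫⁻ u in J, ∑ j, ENNReal.ofReal |x j| *
                (2 * ENNReal.ofReal (om (P j) (P' j) (P i₀) (P' i₀) u)) := by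
                apply setLIntegral_mono' hJ.measurableSet
                intro u hu
                refine (ENNReal.ofReal_le_ofReal (hφb u hu)).trans ?_
                rw [ENNReal.ofReal_sum_of_nonneg]
                · apply sum_le_sum
                  intro j _
                  rw [ENNReal.ofReal_mul (abs_nonneg _), ENNReal.ofReal_mul (by norm_num)]
                  simp
                · intro j _
                  unfold om
                  positivity
            _ = ∑ j, ENNReal.ofReal |x j| * (2 * I j) := by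
                rw [lintegral_finsetSum]
                · apply sum_congr rfl
                  intro j _
                  rw [lintegral_const_mul _ ((hom j).const_mul 2), lintegral_const_mul _ (hom j)]
                · intro j _
                  exact ((hom j).const_mul 2).const_mul _
  refine (lintegral_mono hsec).trans ?_
  have hmx : ∀ j, Measurable (fun x : Fin k → ℝ => ENNReal.ofReal |x j|) :=
    fun j => (measurable_pi_apply j).abs.ennreal_ofReal
  rw [lintegral_const_mul _ (Finset.measurable_sum _ (fun j _ => (hmx j).mul_const _)),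
    lintegral_finsetSum _ (fun j _ => (hmx j).mul_const _)]
  gcongr
  rw [mul_sum, mul_sum]
  apply sum_le_sum
  intro j _
  rw [lintegral_mul_const _ (hmx j)]
  gcongr
  have h1 : ∫⁻ x, ENNReal.ofReal |x j| ∂Measure.pi ν = ∫⁻ y, ENNReal.ofReal |y| ∂ν j := by
    have := (measurePreserving_eval ν j).lintegral_comp
      (f := fun y => ENNReal.ofReal |y|) measurable_id.abs.ennreal_ofReal
    exact this
  rw [h1]
  exact hB j

/-- the majorant density -/
noncomputable def Om (P P' : Fin k → ℝ → ℝ) (u : ℝ) : ℝ≥0∞ :=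
  ∑ i, ∑ j, ENNReal.ofReal (om (P j) (P' j) (P i) (P' i) u)

theorem lintegral_Om {P P' : Fin k → ℝ → ℝ} (hP : ∀ i, Continuous (P i))
    (hP' : ∀ i, Continuous (P' i)) (X : Set ℝ) : ∫⁻ u in X, Om P P' u =
      ∑ i, ∑ j, ∫⁻ u in X, ENNReal.ofReal (om (P j) (P' j) (P i) (P' i) u) := by
  unfold Om
  have hom : ∀ i j, Measurable (fun u => ENNReal.ofReal (om (P j) (P' j) (P i) (P' i) u)) :=
    fun i j => (measurable_om (hP j) (hP' j) (hP i) (hP' i)).ennreal_ofReal
  rw [lintegral_finsetSum _ (fun i _ => Finset.measurable_sum _ (fun j _ => hom i j))]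
  apply sum_congr rfl
  intro i _
  rw [lintegral_finsetSum _ (fun j _ => hom i j)]

theorem ico_exhaust {a b : ℝ} (hab : a < b) : ∃ J : ℕ → Set ℝ, (∀ n, IsCompact (J n)) ∧
    Monotone J ∧ Set.Ico a b = ⋃ n, J n := by
  refine ⟨fun n => Set.Icc a (b - (b - a) / (n + 1)), fun n => isCompact_Icc, ?_, ?_⟩
  · intro n m hnm
    apply Set.Icc_subset_Icc le_rfl
    have : (b - a) / (m + 1) ≤ (b - a) / (n + 1) := by
      apply div_le_div_of_nonneg_left (by linarith) (by positivity)
      have : (n : ℝ) ≤ m := by exact_mod_cast hnm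
      linarith
    linarith
  · ext u
    simp only [Set.mem_Ico, Set.mem_iUnion, Set.mem_Icc]
    constructor
    · rintro ⟨h1, h2⟩
      obtain ⟨n, hn⟩ := exists_nat_gt ((b - a) / (b - u))
      have h3 : 0 < b - u := by linarith
      have hn1 : (0 : ℝ) < n + 1 := by positivity
      refine ⟨n, h1, ?_⟩
      have : (b - a) / (n + 1) ≤ b - u := by
        rw [div_le_iff₀ hn1]
        rw [div_lt_iff₀ h3] at hn
        nlinarith
      linarith
    · rintro ⟨n, h1, h2⟩
      have hn1 : (0 : ℝ) < n + 1 := by positivity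
      have : 0 < (b - a) / (n + 1) := div_pos (by linarith) hn1
      exact ⟨h1, by linarith⟩

section bounds

variable {ν : Fin k → Measure ℝ} [∀ i, IsProbabilityMeasure (ν i)] {A B : ℝ≥0∞}
  {P P' : Fin k → ℝ → ℝ}

theorem compact_bound
    (hA : ∀ i, ν i ≤ A • volume) (hB : ∀ i, ∫⁻ x, ENNReal.ofReal |x| ∂ν i ≤ B)
    (hP : ∀ i u, HasDerivAt (P i) (P' i u) u)
    (hP' : ∀ i, Continuous (P' i)) {J : Set ℝ} (hJ : IsCompact J)
    (h0 : ∀ u ∈ J, ∃ i, P i u ≠ 0) :
    Measure.pi ν (E P J) ≤ A * (B * (2 * ∫⁻ u in J, Om P P' u)) := by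
  have hPc : ∀ i, Continuous (P i) :=
    fun i => continuous_iff_continuousAt.mpr (fun u => (hP i u).continuousAt)
  set C : Fin k → Set ℝ := fun i => J ∩ {u | ∀ j, |P j u| ≤ |P i u|} with hC
  have hCc : ∀ i, IsCompact (C i) := by
    intro i
    apply hJ.inter_right
    have : {u | ∀ j, |P j u| ≤ |P i u|} = ⋂ j, {u | |P j u| ≤ |P i u|} := by
      ext u; simp
    rw [this]
    exact isClosed_iInter (fun j => isClosed_le (hPc j).abs (hPc i).abs)
  have hsub : E P J ⊆ ⋃ i, E P (C i) := by
    rintro c ⟨u, hu, h⟩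
    obtain ⟨i₁, hi₁⟩ := h0 u hu
    have : Nonempty (Fin k) := ⟨i₁⟩
    obtain ⟨i, hi⟩ := Finite.exists_max (fun i => |P i u|)
    rw [Set.mem_iUnion]
    exact ⟨i, u, ⟨hu, hi⟩, h⟩
  calc Measure.pi ν (E P J) ≤ Measure.pi ν (⋃ i, E P (C i)) := measure_mono hsub
    _ ≤ ∑ i, Measure.pi ν (E P (C i)) := measure_iUnion_fintype_le _ _
    _ ≤ ∑ i, A * (B * (2 * ∑ j, ∫⁻ u in C i,
          ENNReal.ofReal (om (P j) (P' j) (P i) (P' i) u))) := by
        apply sum_le_sum
        intro i _
        apply sector hA hB hP hP' (hCc i) i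
        · rintro u ⟨hu, hi⟩ h
          obtain ⟨j, hj⟩ := h0 u hu
          have := hi j
          rw [h, abs_zero] at this
          exact hj (abs_nonpos_iff.mp this)
        · rintro u ⟨hu, hi⟩ j
          exact hi j
    _ ≤ ∑ i, A * (B * (2 * ∑ j, ∫⁻ u in J,
          ENNReal.ofReal (om (P j) (P' j) (P i) (P' i) u))) := by
        gcongr
        exact Set.inter_subset_left
    _ = A * (B * (2 * ∫⁻ u in J, Om P P' u)) := by
        rw [lintegral_Om hPc hP', mul_sum, mul_sum, mul_sum]

theorem ico_bound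
    (hA : ∀ i, ν i ≤ A • volume) (hB : ∀ i, ∫⁻ x, ENNReal.ofReal |x| ∂ν i ≤ B)
    (hP : ∀ i u, HasDerivAt (P i) (P' i u) u)
    (hP' : ∀ i, Continuous (P' i)) {a b : ℝ} (hab : a < b)
    (h0 : ∀ u ∈ Set.Ico a b, ∃ i, P i u ≠ 0) :
    Measure.pi ν (E P (Set.Ico a b)) ≤ A * (B * (2 * ∫⁻ u in Set.Ico a b, Om P P' u)) := by
  obtain ⟨J, hJ, hJm, hJU⟩ : ∃ J : ℕ → Set ℝ, (∀ n, IsCompact (J n)) ∧ Monotone J ∧
      Set.Ico a b = ⋃ n, J n := ico_exhaust hab
  have hE : E P (Set.Ico a b) = ⋃ n, E P (J n) := by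
    ext c
    simp only [E, hJU, Set.mem_ofPred_eq, Set.mem_iUnion]
    constructor
    · rintro ⟨u, ⟨n, hn⟩, h⟩
      exact ⟨n, u, hn, h⟩
    · rintro ⟨n, u, hn, h⟩
      exact ⟨u, ⟨n, hn⟩, h⟩
  have hEm : Monotone (fun n => E P (J n)) := by
    intro n m hnm c
    rintro ⟨u, hu, h⟩
    exact ⟨u, hJm hnm hu, h⟩
  rw [hE, hEm.measure_iUnion]
  apply iSup_le
  intro n
  have hsub : J n ⊆ Set.Ico a b := by rw [hJU]; exact Set.subset_iUnion J n
  refine (compact_bound hA hB hP hP' (hJ n) (fun u hu => h0 u (hsub hu))).trans ?_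
  gcongr

end bounds

/-- mesh cell -/
def cell (n : ℕ) (r : ℤ) : Set ℝ := {u | ⌊((n : ℝ) + 1) * u⌋ = r}

theorem cell_eq (n : ℕ) (r : ℤ) :
    cell n r = Set.Ico (r / ((n : ℝ) + 1)) ((r + 1) / ((n : ℝ) + 1)) := by
  ext u
  have hn : (0 : ℝ) < n + 1 := by positivity
  simp only [cell, Set.mem_ofPred_eq, Set.mem_Ico]
  rw [Int.floor_eq_iff, div_le_iff₀ hn, lt_div_iff₀ hn, mul_comm u]

theorem cell_lt (n : ℕ) (r : ℤ) : (r : ℝ) / ((n : ℝ) + 1) < (r + 1) / ((n : ℝ) + 1) := by
  have hn : (0 : ℝ) < n + 1 := by positivity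
  gcongr
  linarith

/-- zero set of the combination -/
def Zs (P : Fin k → ℝ → ℝ) (c : Fin k → ℝ) : Set ℝ := {u | ∑ i, c i * P i u = 0}

/-- number of cells containing a zero -/
noncomputable def G (P : Fin k → ℝ → ℝ) (n : ℕ) (c : Fin k → ℝ) : ℝ≥0∞ :=
  ∑' r : ℤ, (E P (cell n r)).indicator 1 c

theorem G_eq (P : Fin k → ℝ → ℝ) (n : ℕ) (c : Fin k → ℝ) :
    G P n c = (((fun u : ℝ => ⌊((n : ℝ) + 1) * u⌋) '' Zs P c).encard : ℝ≥0∞) := by
  unfold G
  rw [← ENNReal.tsum_set_one, _root_.tsum_subtype _ (fun _ => (1 : ℝ≥0∞))]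
  apply tsum_congr
  intro r
  have : c ∈ E P (cell n r) ↔ r ∈ (fun u : ℝ => ⌊((n : ℝ) + 1) * u⌋) '' Zs P c := by
    simp only [E, cell, Zs, Set.mem_ofPred_eq, Set.mem_image]
    constructor
    · rintro ⟨u, h1, h2⟩; exact ⟨u, h2, h1⟩
    · rintro ⟨u, h2, h1⟩; exact ⟨u, h1, h2⟩
  by_cases h : c ∈ E P (cell n r)
  · rw [Set.indicator_of_mem h, Set.indicator_of_mem (this.mp h)]; rfl
  · rw [Set.indicator_of_notMem h, Set.indicator_of_notMem (fun h' => h (this.mpr h'))]

theorem G_le (P : Fin k → ℝ → ℝ) (n : ℕ) (c : Fin k → ℝ) :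
    G P n c ≤ ((Zs P c).encard : ℝ≥0∞) := by
  rw [G_eq]
  exact ENat.toENNReal_mono (Set.encard_image_le _ _)

theorem eventually_card_le (P : Fin k → ℝ → ℝ) (c : Fin k → ℝ) (T : Finset ℝ)
    (hT : (T : Set ℝ) ⊆ Zs P c) : ∀ᶠ n in atTop, (T.card : ℝ≥0∞) ≤ G P n c := by
  have h1 : ∀ᶠ n : ℕ in atTop, ∀ x ∈ T, ∀ y ∈ T, x < y →
      ⌊((n : ℝ) + 1) * x⌋ < ⌊((n : ℝ) + 1) * y⌋ := by
    rw [Filter.eventually_all_finset]
    intro x hx
    rw [Filter.eventually_all_finset]
    intro y hy
    by_cases hxy : x < y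
    · obtain ⟨N, hN⟩ := exists_nat_gt (1 / (y - x))
      filter_upwards [eventually_ge_atTop N] with n hn _
      have h2 : (N : ℝ) ≤ n := by exact_mod_cast hn
      have h3 : 0 < y - x := by linarith
      rw [div_lt_iff₀ h3] at hN
      have h4 : ((n : ℝ) + 1) * x + 1 ≤ ((n : ℝ) + 1) * y := by nlinarith
      have h5 := Int.floor_mono h4
      rw [Int.floor_add_one] at h5
      omega
    · exact Eventually.of_forall (fun n h => absurd h hxy)
  filter_upwards [h1] with n hn
  rw [G_eq]
  have hinj : Set.InjOn (fun u : ℝ => ⌊((n : ℝ) + 1) * u⌋) (T : Set ℝ) := by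
    intro x hx y hy hxy
    rcases lt_trichotomy x y with h | h | h
    · exact absurd hxy (hn x hx y hy h).ne
    · exact h
    · exact absurd hxy (hn y hy x hx h).ne'
  have h2 : (T : Set ℝ).encard ≤ ((fun u : ℝ => ⌊((n : ℝ) + 1) * u⌋) '' Zs P c).encard := by
    rw [← hinj.encard_image]
    exact Set.encard_le_encard (Set.image_mono hT)
  rw [Set.encard_coe_eq_coe_finsetCard] at h2
  exact_mod_cast ENat.toENNReal_mono h2

theorem encard_le_liminf (P : Fin k → ℝ → ℝ) (c : Fin k → ℝ) :
    ((Zs P c).encard : ℝ≥0∞) ≤ liminf (fun n => G P n c) atTop := by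
  by_cases h : (Zs P c).Finite
  · rw [h.encard_eq_coe_toFinset_card]
    refine le_liminf_of_le (by isBoundedDefault) ?_
    have := eventually_card_le P c h.toFinset (by simp)
    simpa using this
  · have : liminf (fun n => G P n c) atTop = ⊤ := by
      apply ENNReal.eq_top_of_forall_nnreal_le
      intro r
      obtain ⟨M, hM⟩ := exists_nat_gt r
      obtain ⟨T, hT, hc⟩ := Set.Infinite.exists_subset_card_eq h M
      have h1 := le_liminf_of_le (by isBoundedDefault) (eventually_card_le P c T hT)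
      rw [hc] at h1
      refine le_trans ?_ h1
      exact_mod_cast hM.le
    rw [this]
    exact le_top

theorem E_iUnion (P : Fin k → ℝ → ℝ) (J : ℕ → Set ℝ) : E P (⋃ n, J n) = ⋃ n, E P (J n) := by
  ext c
  simp only [E, Set.mem_ofPred_eq, Set.mem_iUnion]
  constructor
  · rintro ⟨u, ⟨n, hn⟩, h⟩
    exact ⟨n, u, hn, h⟩
  · rintro ⟨n, u, hn, h⟩
    exact ⟨u, ⟨n, hn⟩, h⟩

theorem measurableSet_E_cell {P : Fin k → ℝ → ℝ} (hP : ∀ i, Continuous (P i)) (n : ℕ) (r : ℤ) :
    MeasurableSet (E P (cell n r)) := by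
  rw [cell_eq]
  obtain ⟨J, hJ, hJm, hJU⟩ := ico_exhaust (cell_lt n r)
  rw [hJU, E_iUnion]
  exact MeasurableSet.iUnion (fun n => (isClosed_E hP (hJ n)).measurableSet)

theorem measurable_G {P : Fin k → ℝ → ℝ} (hP : ∀ i, Continuous (P i)) (n : ℕ) :
    Measurable (G P n) := by
  unfold G
  exact Measurable.tsum
    (fun r => measurable_one.indicator (measurableSet_E_cell hP n r))

theorem encard_eq_liminf (P : Fin k → ℝ → ℝ) (c : Fin k → ℝ) :
    ((Zs P c).encard : ℝ≥0∞) = liminf (fun n => G P n c) atTop := by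
  apply le_antisymm (encard_le_liminf P c)
  calc liminf (fun n => G P n c) atTop
      ≤ liminf (fun _ : ℕ => ((Zs P c).encard : ℝ≥0∞)) atTop :=
        liminf_le_liminf (Eventually.of_forall (fun n => G_le P n c))
    _ = _ := liminf_const _

theorem measurable_encard {P : Fin k → ℝ → ℝ} (hP : ∀ i, Continuous (P i)) :
    Measurable (fun c => ((Zs P c).encard : ℝ≥0∞)) := by
  have : (fun c => ((Zs P c).encard : ℝ≥0∞)) = fun c => liminf (fun n => G P n c) atTop := by
    ext c
    exact encard_eq_liminf P c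
  rw [this]
  exact Measurable.liminf (measurable_G hP)

/-- expected number of zeros of a random linear combination -/
theorem crofton {ν : Fin k → Measure ℝ} [∀ i, IsProbabilityMeasure (ν i)] {A B : ℝ≥0∞}
    {P P' : Fin k → ℝ → ℝ}
    (hA : ∀ i, ν i ≤ A • volume) (hB : ∀ i, ∫⁻ x, ENNReal.ofReal |x| ∂ν i ≤ B)
    (hP : ∀ i u, HasDerivAt (P i) (P' i u) u)
    (hP' : ∀ i, Continuous (P' i)) (W : Finset ℝ) (hW : ∀ u, (∀ i, P i u = 0) → u ∈ W) :
    ∫⁻ c, ((Zs P c).encard : ℝ≥0∞) ∂Measure.pi ν ≤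
      W.card + A * (B * (2 * ∑ i, ∑ j,
        ∫⁻ u, ENNReal.ofReal (om (P j) (P' j) (P i) (P' i) u))) := by
  have hPc : ∀ i, Continuous (P i) :=
    fun i => continuous_iff_continuousAt.mpr (fun u => (hP i u).continuousAt)
  have hn : ∀ n, ∫⁻ c, G P n c ∂Measure.pi ν ≤
      W.card + A * (B * (2 * ∫⁻ u, Om P P' u)) := by
    intro n
    unfold G
    rw [lintegral_tsum (fun r =>
      (measurable_one.indicator (measurableSet_E_cell hPc n r)).aemeasurable)]
    set R : Finset ℤ := W.image (fun u => ⌊((n : ℝ) + 1) * u⌋) with hR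
    have h1 : ∀ r : ℤ, ∫⁻ c, (E P (cell n r)).indicator 1 c ∂Measure.pi ν ≤
        (R : Set ℤ).indicator 1 r + A * (B * (2 * ∫⁻ u in cell n r, Om P P' u)) := by
      intro r
      rw [lintegral_indicator_one (measurableSet_E_cell hPc n r)]
      by_cases hr : r ∈ R
      · rw [Set.indicator_of_mem (by exact_mod_cast hr)]
        exact le_add_right prob_le_one
      · refine le_add_left ?_
        rw [cell_eq]
        apply ico_bound hA hB hP hP' (cell_lt n r)
        intro u hu
        by_contra hcon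
        push Not at hcon
        apply hr
        rw [hR, mem_image]
        refine ⟨u, hW u hcon, ?_⟩
        rw [← cell_eq] at hu
        exact hu
    refine (ENNReal.tsum_le_tsum h1).trans ?_
    rw [ENNReal.tsum_add]
    apply add_le_add
    · rw [← _root_.tsum_subtype]
      have h2 : ∑' x : (R : Set ℤ), (1 : ℤ → ℝ≥0∞) x = ((R : Set ℤ).encard : ℝ≥0∞) := by
        rw [← ENNReal.tsum_set_one]
        rfl
      rw [h2, Set.encard_coe_eq_coe_finsetCard]
      simp only [ENat.toENNReal_coe]
      exact_mod_cast card_image_le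
    · rw [ENNReal.tsum_mul_left, ENNReal.tsum_mul_left, ENNReal.tsum_mul_left]
      gcongr
      rw [← lintegral_iUnion]
      · exact setLIntegral_le_lintegral _ _
      · intro r
        rw [cell_eq]
        exact measurableSet_Ico
      · intro r r' hrr
        rw [Function.onFun, Set.disjoint_left]
        intro u hu hu'
        exact hrr (hu.symm.trans hu')
  have hOm : ∫⁻ u, Om P P' u = ∑ i, ∑ j,
        ∫⁻ u, ENNReal.ofReal (om (P j) (P' j) (P i) (P' i) u) := by
    have := lintegral_Om hPc hP' Set.univ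
    simpa only [setLIntegral_univ] using this
  rw [← hOm]
  calc ∫⁻ c, ((Zs P c).encard : ℝ≥0∞) ∂Measure.pi ν
      = ∫⁻ c, liminf (fun n => G P n c) atTop ∂Measure.pi ν := by
        apply lintegral_congr
        exact encard_eq_liminf P
    _ ≤ liminf (fun n => ∫⁻ c, G P n c ∂Measure.pi ν) atTop :=
        lintegral_liminf_le (measurable_G hPc)
    _ ≤ liminf (fun _ : ℕ => W.card + A * (B * (2 * ∫⁻ u, Om P P' u))) atTop :=
        liminf_le_liminf (Eventually.of_forall hn)
    _ = _ := liminf_const _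

end Pool.Agent.H189R2.Tau
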