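import Pool.Agent.H189R2.Tau.Local

/-! Lower Lebesgue integrals on the line: exhaustion of open intervals and cutting at finitely many
points. -/

set_option autoImplicit false

namespace Pool.Agent.H189R2.Tau

open Finset MeasureTheory
open scoped ENNReal

theorem exhaust {ψ : ℝ → ℝ≥0∞} {K : ℝ≥0∞} {a b : ℝ} (hab : a < b)
    (h : ∀ a' b', a < a' → a' ≤ b' → b' < b → ∫⁻ u in Set.Icc a' b', ψ u ≤ K) :
    ∫⁻ u in Set.Ioo a b, ψ u ≤ K := by
  set δ := (b - a) / 2 with hδ
  have hδ0 : 0 < δ := by rw [hδ]; linarith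
  set J : ℕ → Set ℝ := fun n => Set.Icc (a + δ / (n + 1)) (b - δ / (n + 1)) with hJ
  have hU : Set.Ioo a b = ⋃ n, J n := by
    ext u
    simp only [Set.mem_Ioo, Set.mem_iUnion, hJ, Set.mem_Icc]
    constructor
    · rintro ⟨h1, h2⟩
      obtain ⟨n, hn⟩ := exists_nat_gt (δ / min (u - a) (b - u))
      have hmin : 0 < min (u - a) (b - u) := lt_min (by linarith) (by linarith)
      have hn1 : (0 : ℝ) < n + 1 := by positivity
      have h3 : δ / (n + 1) ≤ min (u - a) (b - u) := by
        rw [div_le_iff₀ hn1]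
        rw [div_lt_iff₀ hmin] at hn
        nlinarith
      have h4 := min_le_left (u - a) (b - u)
      have h5 := min_le_right (u - a) (b - u)
      exact ⟨n, by linarith, by linarith⟩
    · rintro ⟨n, h1, h2⟩
      have hn1 : (0 : ℝ) < n + 1 := by positivity
      have : 0 < δ / (n + 1) := by positivity
      exact ⟨by linarith, by linarith⟩
  have hmono : Monotone J := by
    intro n m hnm
    apply Set.Icc_subset_Icc
    · have : δ / (m + 1) ≤ δ / (n + 1) := by
        apply div_le_div_of_nonneg_left hδ0.le (by positivity)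
        have : (n : ℝ) ≤ m := by exact_mod_cast hnm
        linarith
      linarith
    · have : δ / (m + 1) ≤ δ / (n + 1) := by
        apply div_le_div_of_nonneg_left hδ0.le (by positivity)
        have : (n : ℝ) ≤ m := by exact_mod_cast hnm
        linarith
      linarith
  rw [hU, setLIntegral_iUnion_of_directed ψ hmono.directed_le]
  apply iSup_le
  intro n
  have hn1 : (1 : ℝ) ≤ n + 1 := by
    have : (0 : ℝ) ≤ n := Nat.cast_nonneg n
    linarith
  have h1 : 0 < δ / (n + 1) := by positivity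
  have h2 : δ / (n + 1) ≤ δ := div_le_self hδ0.le hn1
  apply h
  · linarith
  · rw [hδ] at h2 ⊢; linarith
  · linarith

/-- cutting at finitely many points -/
theorem cut {ψ χ : ℝ → ℝ≥0∞} {K : ℝ≥0∞} (Z : Finset ℝ) {a₀ b₀ : ℝ}
    (h : ∀ a b, a₀ ≤ a → b ≤ b₀ → a < b → Disjoint (Set.Ioo a b) (Z : Set ℝ) →
      ∫⁻ u in Set.Ioo a b, ψ u ≤ K + ∫⁻ u in Set.Ioo a b, χ u) :
    ∀ (n : ℕ) (a b : ℝ), a₀ ≤ a → b ≤ b₀ → a < b → (Z.filter (fun z => a < z ∧ z < b)).card = n →
      ∫⁻ u in Set.Ioo a b, ψ u ≤ (n + 1) * K + ∫⁻ u in Set.Ioo a b, χ u := by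
  intro n
  induction n using Nat.strong_induction_on with
  | _ n ih =>
    intro a b ha hb hab hcard
    by_cases hne : (Z.filter (fun z => a < z ∧ z < b)).Nonempty
    · obtain ⟨z, hz⟩ := hne
      rw [mem_filter] at hz
      obtain ⟨hzZ, haz, hzb⟩ := hz
      set F := Z.filter (fun z => a < z ∧ z < b) with hF
      set F1 := Z.filter (fun w => a < w ∧ w < z) with hF1
      set F2 := Z.filter (fun w => z < w ∧ w < b) with hF2
      have hzF : z ∈ F := by rw [hF, mem_filter]; exact ⟨hzZ, haz, hzb⟩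
      have hdisj : Disjoint F1 F2 := by
        rw [Finset.disjoint_left]
        intro w hw1 hw2
        rw [hF1, mem_filter] at hw1
        rw [hF2, mem_filter] at hw2
        linarith [hw1.2.2, hw2.2.1]
      have hsub : F1 ∪ F2 ⊆ F.erase z := by
        intro w hw
        rw [mem_union, hF1, hF2, mem_filter, mem_filter] at hw
        rw [mem_erase, hF, mem_filter]
        rcases hw with hw | hw
        · exact ⟨ne_of_lt hw.2.2, hw.1, hw.2.1, by linarith [hw.2.2]⟩
        · exact ⟨ne_of_gt hw.2.1, hw.1, by linarith [hw.2.1], hw.2.2⟩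
      have hc : F1.card + F2.card + 1 ≤ n := by
        have h1 := card_le_card hsub
        rw [card_union_of_disjoint hdisj, card_erase_of_mem hzF, hcard] at h1
        have : 0 < n := by rw [← hcard]; exact card_pos.mpr ⟨z, hzF⟩
        omega
      have e1 := ih F1.card (by omega) a z ha (by linarith) haz rfl
      have e2 := ih F2.card (by omega) z b (by linarith) hb hzb rfl
      have hsplit : Set.Ioo a b ⊆ Set.Ioo a z ∪ ({z} ∪ Set.Ioo z b) := by
        intro u hu
        rcases lt_trichotomy u z with h1 | h1 | h1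
        · left; exact ⟨hu.1, h1⟩
        · right; left; exact h1
        · right; right; exact ⟨h1, hu.2⟩
      have hzero : ∫⁻ u in ({z} : Set ℝ), ψ u = 0 := by
        rw [Measure.restrict_singleton]
        simp
      have hχ : (∫⁻ u in Set.Ioo a z, χ u) + (∫⁻ u in Set.Ioo z b, χ u) ≤
          ∫⁻ u in Set.Ioo a b, χ u := by
        rw [← lintegral_union measurableSet_Ioo]
        · apply lintegral_mono_set
          intro u hu
          rcases hu with hu | hu
          · exact ⟨hu.1, by linarith [hu.2]⟩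
          · exact ⟨by linarith [hu.1], hu.2⟩
        · rw [Set.disjoint_left]
          intro u hu1 hu2
          linarith [hu1.2, hu2.1]
      calc ∫⁻ u in Set.Ioo a b, ψ u ≤ ∫⁻ u in Set.Ioo a z ∪ ({z} ∪ Set.Ioo z b), ψ u :=
            lintegral_mono_set hsplit
        _ ≤ (∫⁻ u in Set.Ioo a z, ψ u) + (∫⁻ u in {z} ∪ Set.Ioo z b, ψ u) :=
            lintegral_union_le _ _ _
        _ ≤ (∫⁻ u in Set.Ioo a z, ψ u) + ((∫⁻ u in {z}, ψ u) + (∫⁻ u in Set.Ioo z b, ψ u)) :=
            add_le_add le_rfl (lintegral_union_le _ _ _)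
        _ = (∫⁻ u in Set.Ioo a z, ψ u) + (∫⁻ u in Set.Ioo z b, ψ u) := by rw [hzero, zero_add]
        _ ≤ ((F1.card + 1) * K + ∫⁻ u in Set.Ioo a z, χ u) +
            ((F2.card + 1) * K + ∫⁻ u in Set.Ioo z b, χ u) := add_le_add e1 e2
        _ = (((F1.card + F2.card + 1 : ℕ) : ℝ≥0∞) + 1) * K +
            ((∫⁻ u in Set.Ioo a z, χ u) + (∫⁻ u in Set.Ioo z b, χ u)) := by push_cast; ring
        _ ≤ (n + 1) * K + ∫⁻ u in Set.Ioo a b, χ u := by
            apply add_le_add _ hχ
            gcongr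
    · have hd : Disjoint (Set.Ioo a b) (Z : Set ℝ) := by
        rw [Set.disjoint_left]
        intro w hw hwZ
        exact hne ⟨w, by rw [mem_filter]; exact ⟨hwZ, hw.1, hw.2⟩⟩
      refine (h a b ha hb hab hd).trans ?_
      gcongr
      calc K = 1 * K := (one_mul _).symm
        _ ≤ (n + 1) * K := by
          gcongr
          exact le_add_self

theorem cut' {ψ χ : ℝ → ℝ≥0∞} {K : ℝ≥0∞} (Z : Finset ℝ) {n : ℕ} (hn : Z.card ≤ n) {a b : ℝ}
    (hab : a < b)
    (h : ∀ a' b', a ≤ a' → b' ≤ b → a' < b' → Disjoint (Set.Ioo a' b') (Z : Set ℝ) →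
      ∫⁻ u in Set.Ioo a' b', ψ u ≤ K + ∫⁻ u in Set.Ioo a' b', χ u) :
    ∫⁻ u in Set.Ioo a b, ψ u ≤ (n + 1) * K + ∫⁻ u in Set.Ioo a b, χ u := by
  refine (cut Z h _ a b le_rfl le_rfl hab rfl).trans ?_
  gcongr
  exact (card_filter_le _ _).trans hn

/-- the whole line -/
theorem line {ψ : ℝ → ℝ≥0∞} {K : ℝ≥0∞} (h : ∀ a b : ℝ, a < b → ∫⁻ u in Set.Ioo a b, ψ u ≤ K) :
    ∫⁻ u, ψ u ≤ K := by
  set J : ℕ → Set ℝ := fun n => Set.Ioo (-((n : ℝ) + 1)) ((n : ℝ) + 1) with hJ
  have hU : (⋃ n, J n) = Set.univ := by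
    rw [Set.eq_univ_iff_forall]
    intro u
    obtain ⟨n, hn⟩ := exists_nat_gt |u|
    rw [Set.mem_iUnion]
    refine ⟨n, ?_⟩
    rw [hJ]
    have := abs_lt.mp hn
    exact ⟨by linarith [this.1], by linarith [this.2]⟩
  have hmono : Monotone J := by
    intro n m hnm
    have : (n : ℝ) ≤ m := by exact_mod_cast hnm
    exact Set.Ioo_subset_Ioo (by linarith) (by linarith)
  rw [← setLIntegral_univ, ← hU, setLIntegral_iUnion_of_directed ψ hmono.directed_le]
  apply iSup_le
  intro n
  apply h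
  have : (0 : ℝ) ≤ n := Nat.cast_nonneg n
  linarith

/-- interval integral of the absolute value of a derivative versus total increments -/
theorem lint_abs {S S' : ℝ → ℝ} {a b : ℝ} (hab : a < b) (hS : ∀ u ∈ Set.Ioo a b, HasDerivAt S (S' u) u)
    (hc : ContinuousOn S' (Set.Ioo a b)) {κ : ℝ}
    (hsign : (∀ u ∈ Set.Ioo a b, 0 ≤ S' u) ∨ (∀ u ∈ Set.Ioo a b, S' u ≤ 0))
    (hosc : ∀ x ∈ Set.Ioo a b, ∀ y ∈ Set.Ioo a b, S x - S y ≤ κ) :
    ∫⁻ u in Set.Ioo a b, ENNReal.ofReal |S' u| ≤ ENNReal.ofReal κ := by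
  apply exhaust hab
  intro a' b' ha' hab' hb'
  have hsub : Set.Icc a' b' ⊆ Set.Ioo a b := fun u hu => ⟨by linarith [hu.1], by linarith [hu.2]⟩
  have hc' : ContinuousOn S' (Set.Icc a' b') := hc.mono hsub
  have hint : IntegrableOn (fun u => |S' u|) (Set.Icc a' b') :=
    hc'.abs.integrableOn_compact isCompact_Icc
  rw [← ofReal_integral_eq_lintegral_ofReal hint (ae_of_all _ (fun _ => abs_nonneg _))]
  apply ENNReal.ofReal_le_ofReal
  rw [integral_Icc_eq_integral_Ioc, ← intervalIntegral.integral_of_le hab']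
  have hftc : ∫ u in a'..b', S' u = S b' - S a' := by
    apply intervalIntegral.integral_eq_sub_of_hasDerivAt
    · intro x hx
      rw [Set.uIcc_of_le hab'] at hx
      exact hS x (hsub hx)
    · apply ContinuousOn.intervalIntegrable
      rwa [Set.uIcc_of_le hab']
  rcases hsign with hs | hs
  · have : ∫ u in a'..b', |S' u| = ∫ u in a'..b', S' u := by
      apply intervalIntegral.integral_congr
      intro x hx
      rw [Set.uIcc_of_le hab'] at hx
      exact abs_of_nonneg (hs x (hsub hx))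
    rw [this, hftc]
    exact hosc _ (hsub ⟨hab', le_rfl⟩) _ (hsub ⟨le_rfl, hab'⟩)
  · have : ∫ u in a'..b', |S' u| = ∫ u in a'..b', -S' u := by
      apply intervalIntegral.integral_congr
      intro x hx
      rw [Set.uIcc_of_le hab'] at hx
      exact abs_of_nonpos (hs x (hsub hx))
    rw [this, intervalIntegral.integral_neg, hftc]
    have := hosc _ (hsub ⟨le_rfl, hab'⟩) _ (hsub ⟨hab', le_rfl⟩)
    linarith

/-- bounded primitive plus a function of bounded variation -/
theorem lint_abs_add {Θ θ S' : ℝ → ℝ} {a b : ℝ} (hab : a < b)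
    (hΘ : ∀ u ∈ Set.Ioo a b, HasDerivAt Θ (θ u) u) (hc : ContinuousOn θ (Set.Ioo a b))
    (hc' : ContinuousOn S' (Set.Ioo a b)) {σ : ℝ} (hσ : |σ| ≤ 1)
    (hle : ∀ u ∈ Set.Ioo a b, |θ u| ≤ σ * θ u + |S' u|) {κ : ℝ} (hκ : 0 ≤ κ)
    (hosc : ∀ x ∈ Set.Ioo a b, ∀ y ∈ Set.Ioo a b, |Θ x - Θ y| ≤ κ) :
    ∫⁻ u in Set.Ioo a b, ENNReal.ofReal |θ u| ≤
      ENNReal.ofReal κ + ∫⁻ u in Set.Ioo a b, ENNReal.ofReal |S' u| := by
  apply exhaust hab
  intro a' b' ha' hab' hb'
  have hsub : Set.Icc a' b' ⊆ Set.Ioo a b := fun u hu => ⟨by linarith [hu.1], by linarith [hu.2]⟩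
  have h1 : ContinuousOn θ (Set.Icc a' b') := hc.mono hsub
  have h2 : ContinuousOn S' (Set.Icc a' b') := hc'.mono hsub
  have hint : IntegrableOn (fun u => |θ u|) (Set.Icc a' b') :=
    h1.abs.integrableOn_compact isCompact_Icc
  have hintS : IntegrableOn (fun u => |S' u|) (Set.Icc a' b') :=
    h2.abs.integrableOn_compact isCompact_Icc
  calc ∫⁻ u in Set.Icc a' b', ENNReal.ofReal |θ u|
      = ENNReal.ofReal (∫ u in Set.Icc a' b', |θ u|) :=
        (ofReal_integral_eq_lintegral_ofReal hint (ae_of_all _ (fun _ => abs_nonneg _))).symm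
    _ ≤ ENNReal.ofReal (κ + ∫ u in Set.Icc a' b', |S' u|) := by
        apply ENNReal.ofReal_le_ofReal
        rw [integral_Icc_eq_integral_Ioc, ← intervalIntegral.integral_of_le hab',
          integral_Icc_eq_integral_Ioc, ← intervalIntegral.integral_of_le hab']
        have hftc : ∫ u in a'..b', θ u = Θ b' - Θ a' := by
          apply intervalIntegral.integral_eq_sub_of_hasDerivAt
          · intro x hx
            rw [Set.uIcc_of_le hab'] at hx
            exact hΘ x (hsub hx)
          · apply ContinuousOn.intervalIntegrable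
            rwa [Set.uIcc_of_le hab']
        have i1 : IntervalIntegrable (fun u => |θ u|) volume a' b' := by
          apply ContinuousOn.intervalIntegrable
          rw [Set.uIcc_of_le hab']; exact h1.abs
        have i2 : IntervalIntegrable θ volume a' b' := by
          apply ContinuousOn.intervalIntegrable
          rw [Set.uIcc_of_le hab']; exact h1
        have i3 : IntervalIntegrable (fun u => |S' u|) volume a' b' := by
          apply ContinuousOn.intervalIntegrable
          rw [Set.uIcc_of_le hab']; exact h2.abs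
        have h3 : ∫ u in a'..b', |θ u| ≤ ∫ u in a'..b', (σ * θ u + |S' u|) := by
          apply intervalIntegral.integral_mono_on hab' i1 ((i2.const_mul σ).add i3)
          intro x hx
          exact hle x (hsub hx)
        rw [intervalIntegral.integral_add (i2.const_mul σ) i3,
          intervalIntegral.integral_const_mul, hftc] at h3
        have h4 := hosc _ (hsub ⟨hab', le_rfl⟩) _ (hsub ⟨le_rfl, hab'⟩)
        have h5 : σ * (Θ b' - Θ a') ≤ κ := by
          calc σ * (Θ b' - Θ a') ≤ |σ * (Θ b' - Θ a')| := le_abs_self _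
            _ = |σ| * |Θ b' - Θ a'| := abs_mul _ _
            _ ≤ 1 * κ := mul_le_mul hσ h4 (abs_nonneg _) (by norm_num)
            _ = κ := one_mul _
        linarith
    _ = ENNReal.ofReal κ + ∫⁻ u in Set.Icc a' b', ENNReal.ofReal |S' u| := by
        rw [ENNReal.ofReal_add hκ (by positivity),
          ofReal_integral_eq_lintegral_ofReal hintS (ae_of_all _ (fun _ => abs_nonneg _))]
    _ ≤ _ := by
        gcongr

end Pool.Agent.H189R2.Tau
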