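import Pool.Agent.H189R2.Tau.Crofton

/-! Sparse polynomials on a half-line as exponential sums, and the expected number of roots there. -/

set_option autoImplicit false

namespace Pool.Agent.H189R2.Tau

open Finset MeasureTheory
open scoped ENNReal Polynomial

/-- exponents of a polynomial as reals -/
noncomputable def sp (p : ℝ[X]) : Finset ℝ :=
  p.support.map ⟨fun n : ℕ => (n : ℝ), Nat.cast_injective⟩

/-- coefficients of `p(ε x)` -/
noncomputable def cf (ε : ℝ) (p : ℝ[X]) (l : ℝ) : ℝ := p.coeff ⌊l⌋₊ * ε ^ ⌊l⌋₊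

theorem card_sp (p : ℝ[X]) : (sp p).card = p.support.card := card_map _

theorem sp_nonempty {p : ℝ[X]} (hp : p ≠ 0) : (sp p).Nonempty := by
  unfold sp
  rw [Finset.map_nonempty, Polynomial.support_nonempty]
  exact hp

theorem cf_ne {ε : ℝ} (hε : ε ≠ 0) (p : ℝ[X]) : ∀ l ∈ sp p, cf ε p l ≠ 0 := by
  intro l hl
  unfold sp at hl
  rw [Finset.mem_map] at hl
  obtain ⟨n, hn, rfl⟩ := hl
  unfold cf
  simp only [Function.Embedding.coeFn_mk, Nat.floor_natCast]
  exact mul_ne_zero (Polynomial.mem_support_iff.mp hn) (pow_ne_zero _ hε)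

theorem es_sp (ε : ℝ) (p : ℝ[X]) (u : ℝ) : es (sp p) (cf ε p) u = p.eval (ε * Real.exp u) := by
  unfold es sp
  rw [sum_map, Polynomial.eval_eq_sum, Polynomial.sum]
  apply sum_congr rfl
  intro n _
  unfold cf
  simp only [Function.Embedding.coeFn_mk, Nat.floor_natCast]
  rw [mul_pow, Real.exp_nat_mul]
  ring

theorem pd_zero {m : ℕ} {s : Fin m → Finset ℝ} {c : Fin m → ℝ → ℝ} (h : ∃ j, s j = ∅) (u : ℝ) :
    pd s c u = 0 := by
  obtain ⟨j, hj⟩ := h
  unfold pd
  apply prod_eq_zero (mem_univ j)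
  simp [es, hj]

theorem pd'_zero {m : ℕ} {s : Fin m → Finset ℝ} {c : Fin m → ℝ → ℝ} (h : ∃ j, s j = ∅) (u : ℝ) :
    pd' s c u = 0 := by
  have h1 := hasDerivAt_pd s c u
  have h2 : pd s c = fun _ => (0 : ℝ) := by
    ext v; exact pd_zero h v
  rw [h2] at h1
  exact h1.unique (hasDerivAt_const u 0)

theorem half {k m t : ℕ} (hm : 0 < m) {f : Fin k → Fin m → ℝ[X]}
    (hf : ∀ i j, (f i j).support.card ≤ t) (hne : ∃ i, ∀ j, f i j ≠ 0)
    {ν : Fin k → Measure ℝ} [∀ i, IsProbabilityMeasure (ν i)] {A B : ℝ≥0∞}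
    (hA : ∀ i, ν i ≤ A • volume) (hB : ∀ i, ∫⁻ x, ENNReal.ofReal |x| ∂ν i ≤ B) {ε : ℝ}
    (hε : ε ≠ 0) :
    ∫⁻ c, ((Zs (fun i u => pd (fun j => sp (f i j)) (fun j => cf ε (f i j)) u) c).encard : ℝ≥0∞)
      ∂Measure.pi ν ≤
      ((m * t : ℕ) : ℝ≥0∞) + A * (B * (2 * ((k : ℝ≥0∞) * (k *
        ENNReal.ofReal (72 * (m : ℝ) ^ 2 * (t : ℝ) ^ 9))))) := by
  obtain ⟨i₁, hi₁⟩ := hne
  have hz : ∀ j, ∃ Z : Finset ℝ, Z.card ≤ t ∧ ∀ x, x ∈ Z ↔
      es (sp (f i₁ j)) (cf ε (f i₁ j)) x = 0 := by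
    intro j
    obtain ⟨Z, hZ, h⟩ := (es_zb (sp_nonempty (hi₁ j)) (cf_ne hε (f i₁ j))).exists_finset
    refine ⟨Z, ?_, h⟩
    rw [card_sp] at hZ
    exact hZ.trans ((Nat.sub_le _ _).trans (hf i₁ j))
  choose Z hZ hZ0 using hz
  refine (crofton (P' := fun i => pd' (fun j => sp (f i j)) (fun j => cf ε (f i j))) hA hB
    (fun i u => hasDerivAt_pd _ _ u) (fun i => continuous_pd' _ _) (univ.biUnion Z) ?_).trans ?_
  · intro u hu
    have h1 := hu i₁
    obtain ⟨j, _, hj⟩ := prod_eq_zero_iff.mp h1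
    rw [mem_biUnion]
    exact ⟨j, mem_univ _, (hZ0 j u).mpr hj⟩
  · apply add_le_add
    · have h1 : (univ.biUnion Z).card ≤ m * t := by
        refine card_biUnion_le.trans ?_
        calc ∑ j, (Z j).card ≤ ∑ _j : Fin m, t := sum_le_sum (fun j _ => hZ j)
          _ = m * t := by simp
      exact_mod_cast h1
    · gcongr
      have h2 : ∀ i j, ∫⁻ u, ENNReal.ofReal
          (om (fun u => pd (fun l => sp (f j l)) (fun l => cf ε (f j l)) u)
            (pd' (fun l => sp (f j l)) (fun l => cf ε (f j l)))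
            (fun u => pd (fun l => sp (f i l)) (fun l => cf ε (f i l)) u)
            (pd' (fun l => sp (f i l)) (fun l => cf ε (f i l))) u) ≤
          ENNReal.ofReal (72 * (m : ℝ) ^ 2 * (t : ℝ) ^ 9) := by
        intro i j
        by_cases h : (∀ l, f i l ≠ 0) ∧ (∀ l, f j l ≠ 0)
        · exact angular hm (fun l => by rw [card_sp]; exact hf j l)
            (fun l => by rw [card_sp]; exact hf i l) (fun l => sp_nonempty (h.2 l))
            (fun l => sp_nonempty (h.1 l)) (fun l => cf_ne hε _) (fun l => cf_ne hε _)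
        · have h0 : ∀ u, om (fun u => pd (fun l => sp (f j l)) (fun l => cf ε (f j l)) u)
              (pd' (fun l => sp (f j l)) (fun l => cf ε (f j l)))
              (fun u => pd (fun l => sp (f i l)) (fun l => cf ε (f i l)) u)
              (pd' (fun l => sp (f i l)) (fun l => cf ε (f i l))) u = 0 := by
            intro u
            rw [not_and_or] at h
            push Not at h
            unfold om
            beta_reduce
            rcases h with ⟨l, hl⟩ | ⟨l, hl⟩
            · have hs : ∃ l, sp (f i l) = ∅ := ⟨l, by rw [hl]; simp [sp]⟩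
              rw [pd_zero (s := fun l => sp (f i l)) hs, pd'_zero (s := fun l => sp (f i l)) hs]
              simp
            · have hs : ∃ l, sp (f j l) = ∅ := ⟨l, by rw [hl]; simp [sp]⟩
              rw [pd_zero (s := fun l => sp (f j l)) hs, pd'_zero (s := fun l => sp (f j l)) hs]
              simp
          simp only [h0]
          simp
      calc _ ≤ ∑ _i : Fin k, ∑ _j : Fin k,
            ENNReal.ofReal (72 * (m : ℝ) ^ 2 * (t : ℝ) ^ 9) :=
            sum_le_sum (fun i _ => sum_le_sum (fun j _ => h2 i j))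
        _ = _ := by simp

end Pool.Agent.H189R2.Tau
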