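import Pool.Agent.H189R2.Tau.Cut

/-! The angular variation of the curve `(P, Q)` where `P` and `Q` are products of exponential sums. -/

set_option autoImplicit false

namespace Pool.Agent.H189R2.Tau

open Finset MeasureTheory
open scoped ENNReal

/-- logarithmic derivative of an exponential sum minus that of its model -/
noncomputable def Sd (s : Finset ℝ) (c : ℝ → ℝ) (A : Polynomial ℝ) (β : ℝ) (u : ℝ) : ℝ :=
  es s (fun l => l * c l) u / es s c u - β - A.derivative.eval u / A.eval u

theorem measurable_Sd (s : Finset ℝ) (c : ℝ → ℝ) (A : Polynomial ℝ) (β : ℝ) :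
    Measurable (Sd s c A β) := by
  unfold Sd
  exact (((continuous_es _ _).measurable.div (continuous_es _ _).measurable).sub_const _).sub
    (A.derivative.continuous.measurable.div A.continuous.measurable)

theorem continuousOn_Sd {s : Finset ℝ} {c : ℝ → ℝ} {A : Polynomial ℝ} {β : ℝ} {X : Set ℝ}
    (h1 : ∀ u ∈ X, es s c u ≠ 0) (h2 : ∀ u ∈ X, A.eval u ≠ 0) : ContinuousOn (Sd s c A β) X := by
  unfold Sd
  apply ContinuousOn.sub
  · apply ContinuousOn.sub _ continuousOn_const
    exact (continuous_es _ _).continuousOn.div (continuous_es _ _).continuousOn h1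
  · exact A.derivative.continuous.continuousOn.div A.continuous.continuousOn h2

theorem ofReal_nat_mul (n : ℕ) {κ : ℝ} :
    ((n : ℝ≥0∞) + 1) * ENNReal.ofReal κ = ENNReal.ofReal (((n : ℝ) + 1) * κ) := by
  rw [ENNReal.ofReal_mul (by positivity), ENNReal.ofReal_add (by positivity) (by norm_num),
    ENNReal.ofReal_natCast, ENNReal.ofReal_one]

theorem Sd_bound {s : Finset ℝ} {c : ℝ → ℝ} {a b : ℝ} (hab : a < b) {d t : ℕ} (hst : s.card ≤ t)
    {β κ m : ℝ}
    {A : Polynomial ℝ} (hA : A.natDegree ≤ d) (hm : 0 < m)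
    (h : ∀ u ∈ Set.Ioo a b, 0 < A.eval u ∧ m * (A.eval u * Real.exp (β * u)) ≤ |es s c u| ∧
      |es s c u| ≤ Real.exp κ * (m * (A.eval u * Real.exp (β * u)))) :
    ∫⁻ u in Set.Ioo a b, ENNReal.ofReal |Sd s c A β u| ≤
      ENNReal.ofReal (((t * (d + 1) : ℕ) + 1 : ℝ) * κ) := by
  have hf : ∀ u ∈ Set.Ioo a b, es s c u ≠ 0 := by
    intro u hu
    obtain ⟨h1, h2, h3⟩ := h u hu
    have : 0 < |es s c u| := lt_of_lt_of_le (by positivity) h2
    exact abs_pos.mp this
  have hA0 : ∀ u ∈ Set.Ioo a b, A.eval u ≠ 0 := fun u hu => (h u hu).1.ne'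
  have hcont : ContinuousOn (Sd s c A β) (Set.Ioo a b) := continuousOn_Sd hf hA0
  set p : ℝ → Polynomial ℝ := fun l =>
    Polynomial.C (c l) * (Polynomial.C (l - β) * A - A.derivative) with hp
  have hpd : ∀ l ∈ s, (p l).natDegree ≤ d := by
    intro l _
    refine (Polynomial.natDegree_C_mul_le _ _).trans ?_
    refine (Polynomial.natDegree_sub_le _ _).trans (max_le ?_ ?_)
    · exact (Polynomial.natDegree_C_mul_le _ _).trans hA
    · exact (Polynomial.natDegree_derivative_le A).trans ((Nat.sub_le _ _).trans hA)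
  have heval : ∀ u, ep s p u = es s (fun l => l * c l) u * A.eval u - β * es s c u * A.eval u -
      es s c u * A.derivative.eval u := by
    intro u
    unfold ep es
    simp only [mul_sum, sum_mul]
    rw [← sum_sub_distrib, ← sum_sub_distrib]
    apply sum_congr rfl
    intro l _
    simp only [hp, Polynomial.eval_mul, Polynomial.eval_sub, Polynomial.eval_C]
    ring
  have hS : ∀ u ∈ Set.Ioo a b, Sd s c A β u = ep s p u / (es s c u * A.eval u) := by
    intro u hu
    have h1 := hf u hu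
    have h2 := hA0 u hu
    rw [heval]
    unfold Sd
    field_simp
  rcases ep_zb' s p d hpd with h0 | hZ
  · have : ∫⁻ u in Set.Ioo a b, ENNReal.ofReal |Sd s c A β u| =
        ∫⁻ u in Set.Ioo a b, (0 : ℝ≥0∞) := by
      apply setLIntegral_congr_fun measurableSet_Ioo
      intro u hu
      simp only
      rw [hS u hu, h0 u]
      simp
    rw [this]
    simp
  · obtain ⟨Z, hZc, hZ⟩ := hZ.exists_finset
    have hZc' : Z.card ≤ t * (d + 1) := hZc.trans (Nat.mul_le_mul_right _ hst)
    have key := cut' (ψ := fun u => ENNReal.ofReal |Sd s c A β u|) (χ := fun _ => 0)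
      (K := ENNReal.ofReal κ) Z hZc' hab ?_
    · rw [lintegral_zero, add_zero, ofReal_nat_mul] at key
      exact key
    · intro a' b' ha' hb' hab' hd
      rw [lintegral_zero, add_zero]
      have hsub : Set.Ioo a' b' ⊆ Set.Ioo a b := Set.Ioo_subset_Ioo ha' hb'
      apply lint_abs (S := fun u => Real.log (es s c u) - β * u - Real.log (A.eval u)) hab'
      · intro u hu
        have h1 := (hasDerivAt_es s c u).log (hf u (hsub hu))
        have h2 : HasDerivAt (fun u => β * u) β u := by
          simpa using (hasDerivAt_id u).const_mul β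
        have h3 := (A.hasDerivAt u).log (hA0 u (hsub hu))
        exact (h1.sub h2).sub h3
      · exact hcont.mono hsub
      · have hne : ∀ u ∈ Set.Ioo a' b', Sd s c A β u ≠ 0 := by
          intro u hu
          rw [hS u (hsub hu)]
          apply div_ne_zero
          · intro h0
            exact Set.disjoint_left.mp hd hu ((hZ u).mpr h0)
          · exact mul_ne_zero (hf u (hsub hu)) (hA0 u (hsub hu))
        rcases sign_const (hcont.mono hsub) hne with h1 | h1
        · left; exact fun u hu => (h1 u hu).le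
        · right; exact fun u hu => (h1 u hu).le
      · have hlog : ∀ x ∈ Set.Ioo a b, Real.log m ≤
            Real.log (es s c x) - β * x - Real.log (A.eval x) ∧
            Real.log (es s c x) - β * x - Real.log (A.eval x) ≤ κ + Real.log m := by
          intro x hx
          obtain ⟨h1, h2, h3⟩ := h x hx
          have hfx := abs_pos.mpr (hf x hx)
          have h4 := Real.log_le_log (by positivity) h2
          have h5 := Real.log_le_log hfx h3
          rw [Real.log_abs, Real.log_mul hm.ne' (by positivity), Real.log_mul h1.ne' (by positivity),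
            Real.log_exp] at h4
          rw [Real.log_abs, Real.log_mul (Real.exp_pos _).ne' (by positivity), Real.log_exp,
            Real.log_mul hm.ne' (by positivity), Real.log_mul h1.ne' (by positivity),
            Real.log_exp] at h5
          constructor <;> linarith
        intro x hx y hy
        have h1 := hlog x (hsub hx)
        have h2 := hlog y (hsub hy)
        linarith [h1.2, h2.1]

theorem hasDerivAt_prod_log {ι : Type*} [DecidableEq ι] (s : Finset ι) {f : ι → ℝ → ℝ}
    {f' : ι → ℝ} {u : ℝ} (h : ∀ i ∈ s, HasDerivAt (f i) (f' i) u) (h0 : ∀ i ∈ s, f i u ≠ 0) :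
    HasDerivAt (fun v => ∏ i ∈ s, f i v) ((∏ i ∈ s, f i u) * ∑ i ∈ s, f' i / f i u) u := by
  induction s using Finset.induction_on with
  | empty => simpa using hasDerivAt_const u (1 : ℝ)
  | insert i s his ih =>
    have h1 := ih (fun j hj => h j (mem_insert_of_mem hj)) (fun j hj => h0 j (mem_insert_of_mem hj))
    have h2 := (h i (mem_insert_self _ _)).fun_mul h1
    have h3 := h0 i (mem_insert_self _ _)
    simp only [prod_insert his, sum_insert his]
    have h4 : f i u * (∏ j ∈ s, f j u) * (f' i / f i u + ∑ j ∈ s, f' j / f j u) =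
        f' i * (∏ j ∈ s, f j u) + f i u * ((∏ j ∈ s, f j u) * ∑ j ∈ s, f' j / f j u) := by
      field_simp
    rw [h4]
    exact h2

theorem comp_bound {P Q P' Q' T : ℝ → ℝ} {a b : ℝ} (hab : a < b)
    (hP : ∀ u, HasDerivAt P (P' u) u) (hQ : ∀ u, HasDerivAt Q (Q' u) u)
    (hP' : Continuous P') (hQ' : Continuous Q')
    (hP0 : ∀ u ∈ Set.Ioo a b, P u ≠ 0) (hQ0 : ∀ u ∈ Set.Ioo a b, Q u ≠ 0)
    {A B : Polynomial ℝ} (hA : ∀ u ∈ Set.Ioo a b, 0 < A.eval u)
    (hB : ∀ u ∈ Set.Ioo a b, 0 < B.eval u)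
    {D : ℕ} (hD : A.natDegree + B.natDegree ≤ D) {β : ℝ}
    (hT : ContinuousOn T (Set.Ioo a b))
    (h : ∀ u ∈ Set.Ioo a b, P' u / P u - Q' u / Q u =
      β + A.derivative.eval u / A.eval u - B.derivative.eval u / B.eval u + T u) :
    ∫⁻ u in Set.Ioo a b, ENNReal.ofReal (|P' u * Q u - P u * Q' u| / (P u ^ 2 + Q u ^ 2)) ≤
      ENNReal.ofReal (((D : ℝ) + 1) * Real.pi) + ∫⁻ u in Set.Ioo a b, ENNReal.ofReal |T u| := by
  set θ : ℝ → ℝ := fun u => (P' u * Q u - P u * Q' u) / (P u ^ 2 + Q u ^ 2) with hθ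
  have hPc : Continuous P := continuous_iff_continuousAt.mpr (fun u => (hP u).continuousAt)
  have hQc : Continuous Q := continuous_iff_continuousAt.mpr (fun u => (hQ u).continuousAt)
  have hpos : ∀ u ∈ Set.Ioo a b, 0 < P u ^ 2 + Q u ^ 2 := by
    intro u hu
    have := pow_pos (abs_pos.mpr (hP0 u hu)) 2
    rw [sq_abs] at this
    positivity
  have hψ : ∀ X : Set ℝ, MeasurableSet X → X ⊆ Set.Ioo a b →
      ∫⁻ u in X, ENNReal.ofReal (|P' u * Q u - P u * Q' u| / (P u ^ 2 + Q u ^ 2)) =
      ∫⁻ u in X, ENNReal.ofReal |θ u| := by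
    intro X hX hXs
    apply setLIntegral_congr_fun hX
    intro u hu
    simp only [hθ]
    rw [abs_div, abs_of_pos (hpos u (hXs hu))]
  rw [hψ _ measurableSet_Ioo le_rfl]
  set N : Polynomial ℝ := Polynomial.C β * A * B + A.derivative * B - A * B.derivative with hN
  have hNd : N.natDegree ≤ D := by
    refine le_trans ?_ hD
    refine (Polynomial.natDegree_sub_le _ _).trans (max_le ?_ ?_)
    · refine (Polynomial.natDegree_add_le _ _).trans (max_le ?_ ?_)
      · refine Polynomial.natDegree_mul_le.trans ?_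
        have := Polynomial.natDegree_C_mul_le β A
        omega
      · refine Polynomial.natDegree_mul_le.trans ?_
        have := Polynomial.natDegree_derivative_le A
        omega
    · refine Polynomial.natDegree_mul_le.trans ?_
      have := Polynomial.natDegree_derivative_le B
      omega
  set G : ℝ → ℝ := fun u =>
    β + A.derivative.eval u / A.eval u - B.derivative.eval u / B.eval u with hG
  have hGN : ∀ u ∈ Set.Ioo a b, G u = N.eval u / (A.eval u * B.eval u) := by
    intro u hu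
    have h1 := (hA u hu).ne'
    have h2 := (hB u hu).ne'
    simp only [hG, hN, Polynomial.eval_sub, Polynomial.eval_add, Polynomial.eval_mul,
      Polynomial.eval_C]
    field_simp
  set k : ℝ → ℝ := fun u => P u * Q u / (P u ^ 2 + Q u ^ 2) with hk
  have hk2 : ∀ u ∈ Set.Ioo a b, |k u| ≤ 1 / 2 := by
    intro u hu
    have h1 := hpos u hu
    simp only [hk]
    rw [abs_div, abs_of_pos h1, div_le_iff₀ h1, abs_mul]
    nlinarith [sq_nonneg (|P u| - |Q u|), sq_abs (P u), sq_abs (Q u)]
  have hθk : ∀ u ∈ Set.Ioo a b, θ u = k u * (G u + T u) := by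
    intro u hu
    have h1 := hpos u hu
    have h2 := hP0 u hu
    have h3 := hQ0 u hu
    have h4 : G u + T u = P' u / P u - Q' u / Q u := by rw [h u hu]
    rw [h4]
    simp only [hθ, hk]
    field_simp
  have hZc : N.roots.toFinset.card ≤ D :=
    (Multiset.toFinset_card_le _).trans ((Polynomial.card_roots' N).trans hNd)
  have key := cut' (ψ := fun u => ENNReal.ofReal |θ u|) (χ := fun u => ENNReal.ofReal |T u|)
    (K := ENNReal.ofReal Real.pi) N.roots.toFinset hZc hab ?_
  · rw [ofReal_nat_mul] at key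
    exact key
  intro a' b' ha' hb' hab' hd
  have hsub : Set.Ioo a' b' ⊆ Set.Ioo a b := Set.Ioo_subset_Ioo ha' hb'
  obtain ⟨σ, hσ1, hσ2⟩ : ∃ σ : ℝ, |σ| ≤ 1 ∧ ∀ u ∈ Set.Ioo a' b', |k u * G u| ≤ σ * (k u * G u) := by
    by_cases hN0 : N = 0
    · refine ⟨0, by simp, fun u hu => ?_⟩
      rw [hGN u (hsub hu), hN0]
      simp
    · have hne : ∀ u ∈ Set.Ioo a' b', k u * G u ≠ 0 := by
        intro u hu
        have hu' := hsub hu
        apply mul_ne_zero
        · exact div_ne_zero (mul_ne_zero (hP0 u hu') (hQ0 u hu')) (hpos u hu').ne'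
        · rw [hGN u hu']
          apply div_ne_zero
          · intro h0
            apply Set.disjoint_left.mp hd hu
            rw [mem_coe, Multiset.mem_toFinset, Polynomial.mem_roots hN0]
            exact h0
          · exact mul_ne_zero (hA u hu').ne' (hB u hu').ne'
      have hcont : ContinuousOn (fun u => k u * G u) (Set.Ioo a' b') := by
        apply ContinuousOn.mul
        · exact (hPc.mul hQc).continuousOn.div ((hPc.pow 2).add (hQc.pow 2)).continuousOn
            (fun u hu => (hpos u (hsub hu)).ne')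
        · apply ContinuousOn.sub
          · apply continuousOn_const.add
            exact A.derivative.continuous.continuousOn.div A.continuous.continuousOn
              (fun u hu => (hA u (hsub hu)).ne')
          · exact B.derivative.continuous.continuousOn.div B.continuous.continuousOn
              (fun u hu => (hB u (hsub hu)).ne')
      rcases sign_const hcont hne with h1 | h1
      · refine ⟨1, by simp, fun u hu => ?_⟩
        rw [abs_of_pos (h1 u hu), one_mul]
      · refine ⟨-1, by simp, fun u hu => ?_⟩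
        rw [abs_of_neg (h1 u hu)]
        linarith
  apply lint_abs_add (Θ := fun u => Real.arctan (P u / Q u)) (σ := σ) hab'
  · intro u hu
    have hu' := hsub hu
    have h2 := hQ0 u hu'
    have h1 := ((hP u).fun_div (hQ u) h2).arctan
    have h3 : θ u = 1 / (1 + (P u / Q u) ^ 2) * ((P' u * Q u - P u * Q' u) / Q u ^ 2) := by
      have h4 := hpos u hu'
      have h5 : 1 + (P u / Q u) ^ 2 = (P u ^ 2 + Q u ^ 2) / Q u ^ 2 := by
        field_simp
        ring
      rw [h5]
      simp only [hθ]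
      field_simp
    rw [h3]
    exact h1
  · have hnum : Continuous (fun u => P' u * Q u - P u * Q' u) := (hP'.mul hQc).sub (hPc.mul hQ')
    exact hnum.continuousOn.div ((hPc.pow 2).add (hQc.pow 2)).continuousOn
      (fun u hu => (hpos u (hsub hu)).ne')
  · exact hT.mono hsub
  · exact hσ1
  · intro u hu
    have hu' := hsub hu
    rw [hθk u hu']
    have h1 := hσ2 u hu
    have h2 := hk2 u hu'
    have h3 : |k u * T u| ≤ 1 / 2 * |T u| := by
      rw [abs_mul]
      exact mul_le_mul_of_nonneg_right h2 (abs_nonneg _)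
    have h4 : |σ * (k u * T u)| ≤ 1 / 2 * |T u| := by
      rw [abs_mul]
      calc |σ| * |k u * T u| ≤ 1 * |k u * T u| := mul_le_mul_of_nonneg_right hσ1 (abs_nonneg _)
        _ = |k u * T u| := one_mul _
        _ ≤ _ := h3
    have h5 := (abs_le.mp h4).1
    have h6 : |k u * (G u + T u)| ≤ |k u * G u| + |k u * T u| := by
      rw [mul_add]; exact abs_add_le _ _
    have h7 : σ * (k u * (G u + T u)) = σ * (k u * G u) + σ * (k u * T u) := by ring
    rw [h7]
    linarith
  · exact Real.pi_pos.le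
  · intro x _ y _
    have h1 := Real.arctan_lt_pi_div_two (P x / Q x)
    have h2 := Real.neg_pi_div_two_lt_arctan (P x / Q x)
    have h3 := Real.arctan_lt_pi_div_two (P y / Q y)
    have h4 := Real.neg_pi_div_two_lt_arctan (P y / Q y)
    rw [abs_le]
    constructor <;> linarith

/-- product of exponential sums -/
noncomputable def pd {m : ℕ} (s : Fin m → Finset ℝ) (c : Fin m → ℝ → ℝ) (u : ℝ) : ℝ :=
  ∏ j, es (s j) (c j) u

/-- its derivative -/
noncomputable def pd' {m : ℕ} (s : Fin m → Finset ℝ) (c : Fin m → ℝ → ℝ) (u : ℝ) : ℝ :=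
  ∑ j, (∏ i ∈ univ.erase j, es (s i) (c i) u) * es (s j) (fun l => l * c j l) u

theorem hasDerivAt_pd {m : ℕ} (s : Fin m → Finset ℝ) (c : Fin m → ℝ → ℝ) (u : ℝ) :
    HasDerivAt (pd s c) (pd' s c u) u := by
  have h := HasDerivAt.fun_finsetProd (u := univ) (f := fun j => es (s j) (c j))
    (f' := fun j => es (s j) (fun l => l * c j l) u) (x := u)
    (fun j _ => hasDerivAt_es (s j) (c j) u)
  have h2 : pd' s c u = ∑ i, (∏ j ∈ univ.erase i, es (s j) (c j) u) •
      es (s i) (fun l => l * c i l) u := by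
    simp [pd', smul_eq_mul]
  rw [h2]
  exact h

theorem continuous_pd' {m : ℕ} (s : Fin m → Finset ℝ) (c : Fin m → ℝ → ℝ) :
    Continuous (pd' s c) := by
  unfold pd'
  apply continuous_finsetSum
  intro j _
  apply Continuous.mul
  · apply continuous_finsetProd
    intro i _
    exact continuous_es _ _
  · exact continuous_es _ _

theorem continuous_pd {m : ℕ} (s : Fin m → Finset ℝ) (c : Fin m → ℝ → ℝ) :
    Continuous (pd s c) :=
  continuous_iff_continuousAt.mpr (fun u => (hasDerivAt_pd s c u).continuousAt)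

theorem pd'_div {m : ℕ} {s : Fin m → Finset ℝ} {c : Fin m → ℝ → ℝ} {u : ℝ}
    (h : ∀ j, es (s j) (c j) u ≠ 0) :
    pd' s c u / pd s c u = ∑ j, es (s j) (fun l => l * c j l) u / es (s j) (c j) u := by
  have h1 := hasDerivAt_prod_log univ (f := fun j => es (s j) (c j))
    (f' := fun j => es (s j) (fun l => l * c j l) u) (u := u)
    (fun j _ => hasDerivAt_es (s j) (c j) u) (fun j _ => h j)
  have h2 := (hasDerivAt_pd s c u).unique h1
  rw [h2]
  have h3 : pd s c u ≠ 0 := prod_ne_zero_iff.mpr (fun j _ => h j)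
  change pd s c u * _ / pd s c u = _
  field_simp

theorem poly_prod_div {m : ℕ} {A : Fin m → Polynomial ℝ} {u : ℝ} (h : ∀ j, (A j).eval u ≠ 0) :
    (∏ j, A j).derivative.eval u / (∏ j, A j).eval u =
      ∑ j, (A j).derivative.eval u / (A j).eval u := by
  have h1 := hasDerivAt_prod_log univ (f := fun j v => (A j).eval v)
    (f' := fun j => (A j).derivative.eval u) (u := u)
    (fun j _ => (A j).hasDerivAt u) (fun j _ => h j)
  have h0 : (fun v => ∏ j, (A j).eval v) = fun v => (∏ j, A j).eval v := by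
    ext v; rw [Polynomial.eval_prod]
  rw [h0] at h1
  have h2 := ((∏ j, A j).hasDerivAt u).unique h1
  rw [h2, Polynomial.eval_prod]
  have h3 : (∏ j, (A j).eval u) ≠ 0 := prod_ne_zero_iff.mpr (fun j _ => h j)
  field_simp

/-- the angular speed of the curve `(P, Q)` -/
noncomputable def om (P P' Q Q' : ℝ → ℝ) (u : ℝ) : ℝ :=
  |P' u * Q u - P u * Q' u| / (P u ^ 2 + Q u ^ 2)

theorem component {m : ℕ} {s r : Fin m → Finset ℝ} {c e : Fin m → ℝ → ℝ} {t : ℕ}
    (hst : ∀ j, (s j).card ≤ t) (hrt : ∀ j, (r j).card ≤ t) {a b : ℝ} (hab : a < b) {d : ℕ}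
    {κ : ℝ} (hκ : 0 ≤ κ) (hs : ∀ j, ∃ β, Mdl (es (s j) (c j)) a b d β κ)
    (hr : ∀ j, ∃ β, Mdl (es (r j) (e j)) a b d β κ) :
    ∫⁻ u in Set.Ioo a b, ENNReal.ofReal (om (pd s c) (pd' s c) (pd r e) (pd' r e) u) ≤
      ENNReal.ofReal ((2 * m * d + 1) * Real.pi + 2 * m * ((t * (d + 1) + 1) * κ)) := by
  choose β A μ hA hμ hs using hs
  choose γ B ν hB hν hr using hr
  have hs0 : ∀ u ∈ Set.Ioo a b, ∀ j, es (s j) (c j) u ≠ 0 := by
    intro u hu j
    obtain ⟨h1, h2, h3⟩ := hs j u hu
    have h4 := hμ j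
    have : 0 < |es (s j) (c j) u| := lt_of_lt_of_le (by positivity) h2
    exact abs_pos.mp this
  have hr0 : ∀ u ∈ Set.Ioo a b, ∀ j, es (r j) (e j) u ≠ 0 := by
    intro u hu j
    obtain ⟨h1, h2, h3⟩ := hr j u hu
    have h4 := hν j
    have : 0 < |es (r j) (e j) u| := lt_of_lt_of_le (by positivity) h2
    exact abs_pos.mp this
  have hA0 : ∀ u ∈ Set.Ioo a b, ∀ j, (A j).eval u ≠ 0 := fun u hu j => (hs j u hu).1.ne'
  have hB0 : ∀ u ∈ Set.Ioo a b, ∀ j, (B j).eval u ≠ 0 := fun u hu j => (hr j u hu).1.ne'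
  set T : ℝ → ℝ := fun u => (∑ j, Sd (s j) (c j) (A j) (β j) u) -
    ∑ j, Sd (r j) (e j) (B j) (γ j) u with hT
  have hcs : ∀ j, ContinuousOn (Sd (s j) (c j) (A j) (β j)) (Set.Ioo a b) :=
    fun j => continuousOn_Sd (fun u hu => hs0 u hu j) (fun u hu => hA0 u hu j)
  have hcr : ∀ j, ContinuousOn (Sd (r j) (e j) (B j) (γ j)) (Set.Ioo a b) :=
    fun j => continuousOn_Sd (fun u hu => hr0 u hu j) (fun u hu => hB0 u hu j)
  have hTc : ContinuousOn T (Set.Ioo a b) := by
    apply ContinuousOn.sub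
    · exact continuousOn_finsetSum _ (fun j _ => hcs j)
    · exact continuousOn_finsetSum _ (fun j _ => hcr j)
  have hdeg : (∏ j, A j).natDegree + (∏ j, B j).natDegree ≤ 2 * m * d := by
    have h1 : (∏ j, A j).natDegree ≤ m * d := by
      refine (Polynomial.natDegree_prod_le _ _).trans ?_
      calc ∑ j, (A j).natDegree ≤ ∑ _j : Fin m, d := sum_le_sum (fun j _ => hA j)
        _ = m * d := by simp
    have h2 : (∏ j, B j).natDegree ≤ m * d := by
      refine (Polynomial.natDegree_prod_le _ _).trans ?_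
      calc ∑ j, (B j).natDegree ≤ ∑ _j : Fin m, d := sum_le_sum (fun j _ => hB j)
        _ = m * d := by simp
    calc (∏ j, A j).natDegree + (∏ j, B j).natDegree ≤ m * d + m * d := add_le_add h1 h2
      _ = 2 * m * d := by ring
  have key := comp_bound hab (hasDerivAt_pd s c) (hasDerivAt_pd r e) (continuous_pd' s c)
    (continuous_pd' r e) (fun u hu => prod_ne_zero_iff.mpr (fun j _ => hs0 u hu j))
    (fun u hu => prod_ne_zero_iff.mpr (fun j _ => hr0 u hu j)) (A := ∏ j, A j) (B := ∏ j, B j)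
    (fun u hu => by rw [Polynomial.eval_prod]; exact prod_pos (fun j _ => (hs j u hu).1))
    (fun u hu => by rw [Polynomial.eval_prod]; exact prod_pos (fun j _ => (hr j u hu).1))
    hdeg (β := (∑ j, β j) - ∑ j, γ j) hTc (by
      intro u hu
      rw [pd'_div (hs0 u hu), pd'_div (hr0 u hu), poly_prod_div (hA0 u hu),
        poly_prod_div (hB0 u hu)]
      simp only [hT, Sd, sum_sub_distrib]
      ring)
  refine key.trans ?_
  have hTb : ∫⁻ u in Set.Ioo a b, ENNReal.ofReal |T u| ≤
      ENNReal.ofReal (2 * m * ((t * (d + 1) + 1) * κ)) := by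
    calc ∫⁻ u in Set.Ioo a b, ENNReal.ofReal |T u|
        ≤ ∫⁻ u in Set.Ioo a b, ((∑ j, ENNReal.ofReal |Sd (s j) (c j) (A j) (β j) u|) +
          ∑ j, ENNReal.ofReal |Sd (r j) (e j) (B j) (γ j) u|) := by
          apply lintegral_mono
          intro u
          simp only [hT]
          rw [← ENNReal.ofReal_sum_of_nonneg (fun j _ => abs_nonneg _),
            ← ENNReal.ofReal_sum_of_nonneg (fun j _ => abs_nonneg _),
            ← ENNReal.ofReal_add (sum_nonneg (fun j _ => abs_nonneg _))
              (sum_nonneg (fun j _ => abs_nonneg _))]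
          apply ENNReal.ofReal_le_ofReal
          refine (abs_sub _ _).trans ?_
          exact add_le_add (abs_sum_le_sum_abs _ _) (abs_sum_le_sum_abs _ _)
      _ = (∑ j, ∫⁻ u in Set.Ioo a b, ENNReal.ofReal |Sd (s j) (c j) (A j) (β j) u|) +
          ∑ j, ∫⁻ u in Set.Ioo a b, ENNReal.ofReal |Sd (r j) (e j) (B j) (γ j) u| := by
          rw [lintegral_add_left, lintegral_finsetSum, lintegral_finsetSum]
          · exact fun j _ => (measurable_Sd _ _ _ _).abs.ennreal_ofReal
          · exact fun j _ => (measurable_Sd _ _ _ _).abs.ennreal_ofReal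
          · exact Finset.measurable_sum _ (fun j _ => (measurable_Sd _ _ _ _).abs.ennreal_ofReal)
      _ ≤ (∑ _j : Fin m, ENNReal.ofReal (((t * (d + 1) : ℕ) + 1 : ℝ) * κ)) +
          ∑ _j : Fin m, ENNReal.ofReal (((t * (d + 1) : ℕ) + 1 : ℝ) * κ) := by
          apply add_le_add
          · exact sum_le_sum (fun j _ => Sd_bound hab (hst j) (hA j) (hμ j) (hs j))
          · exact sum_le_sum (fun j _ => Sd_bound hab (hrt j) (hB j) (hν j) (hr j))
      _ = ENNReal.ofReal (2 * m * ((t * (d + 1) + 1) * κ)) := by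
          rw [sum_const, card_univ, Fintype.card_fin, ← two_mul, nsmul_eq_mul, ← mul_assoc]
          rw [ENNReal.ofReal_mul (by positivity : (0 : ℝ) ≤ 2 * m), ENNReal.ofReal_mul (by norm_num : (0:ℝ) ≤ 2)]
          push_cast
          simp
  calc ENNReal.ofReal (((2 * m * d : ℕ) + 1 : ℝ) * Real.pi) +
        ∫⁻ u in Set.Ioo a b, ENNReal.ofReal |T u|
      ≤ ENNReal.ofReal (((2 * m * d : ℕ) + 1 : ℝ) * Real.pi) +
        ENNReal.ofReal (2 * m * ((t * (d + 1) + 1) * κ)) := add_le_add le_rfl hTb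
    _ = ENNReal.ofReal ((2 * m * d + 1) * Real.pi + 2 * m * ((t * (d + 1) + 1) * κ)) := by
        rw [← ENNReal.ofReal_add (by positivity) (by positivity)]
        push_cast
        rfl

theorem local_models' {t : ℕ} {s : Finset ℝ} {c : ℝ → ℝ} (hst : s.card ≤ t) (hs : s.Nonempty)
    (hc : ∀ l ∈ s, c l ≠ 0) : ∃ Z : Finset ℝ, Z.card ≤ t ^ 3 ∧ ∀ a b : ℝ, a < b →
      Disjoint (Set.Ioo a b) (Z : Set ℝ) →
      ∃ β : ℝ, Mdl (es s c) a b (t - 1) β (4 * (t : ℝ) ^ 4) := by
  obtain ⟨Z, hZ, h⟩ := local_models s.card s c rfl hs hc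
  refine ⟨Z, hZ.trans (Nat.pow_le_pow_left hst 3), fun a b hab hd => ?_⟩
  obtain ⟨β, hβ⟩ := h a b hab hd
  refine ⟨β, hβ.mono (Nat.sub_le_sub_right hst 1) ?_⟩
  have : (s.card : ℝ) ≤ t := by exact_mod_cast hst
  gcongr

/-- the total angular variation of `(P, Q)` over the line is polynomially bounded -/
theorem angular {m t : ℕ} (hm : 0 < m) {s r : Fin m → Finset ℝ} {c e : Fin m → ℝ → ℝ}
    (hst : ∀ j, (s j).card ≤ t) (hrt : ∀ j, (r j).card ≤ t) (hs : ∀ j, (s j).Nonempty)
    (hr : ∀ j, (r j).Nonempty) (hc : ∀ j, ∀ l ∈ s j, c j l ≠ 0) (he : ∀ j, ∀ l ∈ r j, e j l ≠ 0) :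
    ∫⁻ u, ENNReal.ofReal (om (pd s c) (pd' s c) (pd r e) (pd' r e) u) ≤
      ENNReal.ofReal (72 * (m : ℝ) ^ 2 * (t : ℝ) ^ 9) := by
  have ht : 1 ≤ t := (hs ⟨0, hm⟩).card_pos.trans_le (hst ⟨0, hm⟩)
  have ht' : (1 : ℝ) ≤ t := by exact_mod_cast ht
  have hm' : (1 : ℝ) ≤ m := by exact_mod_cast hm
  choose Z hZ hZm using fun j => local_models' (hst j) (hs j) (hc j)
  choose Y hY hYm using fun j => local_models' (hrt j) (hr j) (he j)
  set W : Finset ℝ := univ.biUnion Z ∪ univ.biUnion Y with hW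
  have hWc : W.card ≤ 2 * m * t ^ 3 := by
    refine (card_union_le _ _).trans ?_
    have h1 : (univ.biUnion Z).card ≤ m * t ^ 3 := by
      refine card_biUnion_le.trans ?_
      calc ∑ j, (Z j).card ≤ ∑ _j : Fin m, t ^ 3 := sum_le_sum (fun j _ => hZ j)
        _ = m * t ^ 3 := by simp
    have h2 : (univ.biUnion Y).card ≤ m * t ^ 3 := by
      refine card_biUnion_le.trans ?_
      calc ∑ j, (Y j).card ≤ ∑ _j : Fin m, t ^ 3 := sum_le_sum (fun j _ => hY j)
        _ = m * t ^ 3 := by simp
    calc (univ.biUnion Z).card + (univ.biUnion Y).card ≤ m * t ^ 3 + m * t ^ 3 := add_le_add h1 h2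
      _ = 2 * m * t ^ 3 := by ring
  apply line
  intro a b hab
  have hcast : ((t - 1 : ℕ) : ℝ) = (t : ℝ) - 1 := by
    rw [Nat.cast_sub ht]; simp
  have key := cut' (ψ := fun u => ENNReal.ofReal (om (pd s c) (pd' s c) (pd r e) (pd' r e) u))
    (χ := fun _ => 0) (K := ENNReal.ofReal (24 * m * (t : ℝ) ^ 6)) W hWc hab (by
      intro a' b' _ _ hab' hd
      rw [lintegral_zero, add_zero]
      have hdZ : ∀ j, Disjoint (Set.Ioo a' b') (Z j : Set ℝ) := by
        intro j
        rw [Set.disjoint_left] at hd ⊢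
        intro u hu huZ
        apply hd hu
        rw [mem_coe, hW, mem_union, mem_biUnion]
        left
        exact ⟨j, mem_univ _, huZ⟩
      have hdY : ∀ j, Disjoint (Set.Ioo a' b') (Y j : Set ℝ) := by
        intro j
        rw [Set.disjoint_left] at hd ⊢
        intro u hu huZ
        apply hd hu
        rw [mem_coe, hW, mem_union, mem_biUnion, mem_biUnion]
        right
        exact ⟨j, mem_univ _, huZ⟩
      refine (component hst hrt hab' (by positivity) (fun j => hZm j a' b' hab' (hdZ j))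
        (fun j => hYm j a' b' hab' (hdY j))).trans ?_
      apply ENNReal.ofReal_le_ofReal
      rw [hcast]
      have h1 : (1 : ℝ) ≤ (t : ℝ) ^ 5 := one_le_pow₀ ht'
      have h2 : (t : ℝ) ≤ (t : ℝ) ^ 6 := by
        have : (t : ℝ) ^ 6 = t * (t : ℝ) ^ 5 := by ring
        rw [this]
        nlinarith
      have h3 : (2 * (m : ℝ) * (t - 1) + 1) * Real.pi ≤ 8 * m * (t : ℝ) ^ 6 := by
        have h4 := Real.pi_le_four
        calc (2 * (m : ℝ) * (t - 1) + 1) * Real.pi ≤ (2 * (m : ℝ) * (t - 1) + 1) * 4 := by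
              apply mul_le_mul_of_nonneg_left h4
              have : 0 ≤ (m : ℝ) * (t - 1) := mul_nonneg (by linarith) (by linarith)
              linarith
          _ ≤ 8 * m * t := by nlinarith
          _ ≤ 8 * m * (t : ℝ) ^ 6 := by
              apply mul_le_mul_of_nonneg_left h2
              linarith
      have h5 : 2 * (m : ℝ) * ((t * ((t : ℝ) - 1 + 1) + 1) * (4 * (t : ℝ) ^ 4)) ≤
          16 * m * (t : ℝ) ^ 6 := by
        have h6 : (1 : ℝ) ≤ (t : ℝ) ^ 2 := one_le_pow₀ ht'
        have h7 : 0 ≤ (m : ℝ) * (t : ℝ) ^ 4 := by positivity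
        have h8 : 2 * (m : ℝ) * ((t * ((t : ℝ) - 1 + 1) + 1) * (4 * (t : ℝ) ^ 4)) =
          8 * ((m : ℝ) * (t : ℝ) ^ 4) * ((t : ℝ) ^ 2 + 1) := by ring
        have h9 : 16 * (m : ℝ) * (t : ℝ) ^ 6 = 8 * ((m : ℝ) * (t : ℝ) ^ 4) * (2 * (t : ℝ) ^ 2) := by
          ring
        rw [h8, h9]
        apply mul_le_mul_of_nonneg_left _ (by positivity)
        linarith
      linarith)
  rw [lintegral_zero, add_zero, ofReal_nat_mul] at key
  refine key.trans (ENNReal.ofReal_le_ofReal ?_)
  push_cast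
  have h1 : (1 : ℝ) ≤ m * (t : ℝ) ^ 3 := by
    have : (1 : ℝ) ≤ (t : ℝ) ^ 3 := one_le_pow₀ ht'
    nlinarith
  have h2 : (2 * (m : ℝ) * (t : ℝ) ^ 3 + 1) * (24 * m * (t : ℝ) ^ 6) ≤
      (3 * (m * (t : ℝ) ^ 3)) * (24 * m * (t : ℝ) ^ 6) := by
    apply mul_le_mul_of_nonneg_right _ (by positivity)
    linarith
  calc _ ≤ _ := h2
    _ = 72 * (m : ℝ) ^ 2 * (t : ℝ) ^ 9 := by ring

end Pool.Agent.H189R2.Tau
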