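import Pool.Agent.H189R2.Tau.Zeros

/-! Turan's lemma for real exponents, and the length of the transition zone between two exponential
sums whose exponents are separated by a gap. -/

set_option autoImplicit false

namespace Pool.Agent.H189R2.Tau

open Finset

/-- coefficients annihilating finitely many exponentials -/
theorem coef (w : ℝ → ℝ) {δ : ℝ} (hδ : 0 < δ) (s : Finset ℝ) : (∀ l ∈ s, 0 ≤ w l) →
    ∃ a : ℕ → ℝ, ∑ k ∈ range s.card, |a k| ≤ 2 ^ s.card - 1 ∧
      ∀ l ∈ s, ∑ k ∈ range s.card, a k * Real.exp (w l * ((k + 1) * δ)) = 1 := by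
  induction s using Finset.induction_on with
  | empty => intro _; exact ⟨fun _ => 0, by simp, by simp⟩
  | insert l' s hl' ih =>
    intro hw
    obtain ⟨a, ha, hs⟩ := ih (fun l hl => hw l (mem_insert_of_mem hl))
    set n := s.card with hn
    set ζ := Real.exp (-(w l') * δ) with hζ
    have hζ0 : 0 < ζ := Real.exp_pos _
    have hζ1 : ζ ≤ 1 := by
      rw [hζ]
      apply Real.exp_le_one_iff.mpr
      have := mul_nonneg (hw l' (mem_insert_self _ _)) hδ.le
      linarith
    rw [card_insert_of_notMem hl', ← hn]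
    -- new coefficients
    refine ⟨fun k => (if k < n then a k else 0) + (if k = 0 then ζ else -ζ * a (k - 1)), ?_, ?_⟩
    · have h1 : ∑ k ∈ range (n + 1), |(if k < n then a k else 0) +
          (if k = 0 then ζ else -ζ * a (k - 1))| ≤
          ∑ k ∈ range (n + 1), |if k < n then a k else 0| +
          ∑ k ∈ range (n + 1), |if k = 0 then ζ else -ζ * a (k - 1)| := by
        rw [← sum_add_distrib]
        exact sum_le_sum (fun k _ => abs_add_le _ _)
      have h2 : ∑ k ∈ range (n + 1), |if k < n then a k else 0| = ∑ k ∈ range n, |a k| := by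
        rw [Finset.sum_range_succ]
        simp only [lt_self_iff_false, if_false, abs_zero, add_zero]
        apply sum_congr rfl
        intro k hk
        rw [if_pos (mem_range.mp hk)]
      have h3 : ∑ k ∈ range (n + 1), |if k = 0 then ζ else -ζ * a (k - 1)| =
          ζ * ∑ k ∈ range n, |a k| + ζ := by
        rw [Finset.sum_range_succ']
        simp only [if_true, abs_of_pos hζ0, Nat.add_sub_cancel, Nat.add_eq_zero_iff, one_ne_zero,
          and_false, if_false, neg_mul, abs_neg, abs_mul, ← mul_sum]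
      rw [h2, h3] at h1
      have h4 : 0 ≤ ∑ k ∈ range n, |a k| := sum_nonneg (fun _ _ => abs_nonneg _)
      have h5 : ζ * ∑ k ∈ range n, |a k| ≤ ∑ k ∈ range n, |a k| := by nlinarith
      rw [pow_succ]
      linarith
    · intro l hl
      -- S + ζ x (1 - S)
      have hsum : ∀ x : ℝ, ∑ k ∈ range (n + 1), ((if k < n then a k else 0) +
          (if k = 0 then ζ else -ζ * a (k - 1))) * Real.exp (x * ((k + 1) * δ)) =
          (∑ k ∈ range n, a k * Real.exp (x * ((k + 1) * δ))) + ζ * Real.exp (x * δ) *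
            (1 - ∑ k ∈ range n, a k * Real.exp (x * ((k + 1) * δ))) := by
        intro x
        have h1 : ∀ k ∈ range (n + 1), ((if k < n then a k else 0) +
            (if k = 0 then ζ else -ζ * a (k - 1))) * Real.exp (x * (((k : ℝ) + 1) * δ)) =
            (if k < n then a k else 0) * Real.exp (x * (((k : ℝ) + 1) * δ)) +
            (if k = 0 then ζ else -ζ * a (k - 1)) * Real.exp (x * (((k : ℝ) + 1) * δ)) :=
          fun k _ => add_mul _ _ _
        rw [sum_congr rfl h1, sum_add_distrib]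
        have h2 : ∑ k ∈ range (n + 1), (if k < n then a k else 0) * Real.exp (x * (((k : ℝ) + 1) * δ))
            = ∑ k ∈ range n, a k * Real.exp (x * (((k : ℝ) + 1) * δ)) := by
          rw [Finset.sum_range_succ]
          simp only [lt_self_iff_false, if_false, zero_mul, add_zero]
          apply sum_congr rfl
          intro k hk
          rw [if_pos (mem_range.mp hk)]
        have h3 : ∑ k ∈ range (n + 1), (if k = 0 then ζ else -ζ * a (k - 1)) *
            Real.exp (x * (((k : ℝ) + 1) * δ)) =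
            ζ * Real.exp (x * δ) - ζ * Real.exp (x * δ) *
              ∑ k ∈ range n, a k * Real.exp (x * (((k : ℝ) + 1) * δ)) := by
          rw [Finset.sum_range_succ']
          simp only [if_true, Nat.add_sub_cancel, Nat.add_eq_zero_iff, one_ne_zero,
            and_false, if_false]
          rw [mul_sum]
          have h4 : ∀ k ∈ range n, -ζ * a k * Real.exp (x * ((((k + 1 : ℕ) : ℝ) + 1) * δ)) =
              -(ζ * Real.exp (x * δ) * (a k * Real.exp (x * (((k : ℝ) + 1) * δ)))) := by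
            intro k _
            have : x * ((((k + 1 : ℕ) : ℝ) + 1) * δ) = x * δ + x * (((k : ℝ) + 1) * δ) := by
              push_cast; ring
            rw [this, Real.exp_add]; ring
          rw [sum_congr rfl h4, sum_neg_distrib]
          have h5 : x * (((0 : ℕ) : ℝ) + 1) * δ = x * δ := by push_cast; ring
          simp only [Nat.cast_zero, zero_add, one_mul]
          ring
        rw [h2, h3]
        ring
      have := hsum (w l)
      simp only at this ⊢
      rw [this]
      rw [mem_insert] at hl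
      rcases hl with rfl | hl
      · have h6 : ζ * Real.exp (w l * δ) = 1 := by
          rw [hζ, ← Real.exp_add]; simp
        rw [h6]; ring
      · rw [hs l hl]; ring

/-- Turan's lemma, forward -/
theorem turan_ge {s : Finset ℝ} (hs : s.Nonempty) (c : ℝ → ℝ) {γ : ℝ} (hγ : ∀ l ∈ s, γ ≤ l)
    {δ : ℝ} (hδ : 0 < δ) (u : ℝ) : ∃ k : ℕ, 1 ≤ k ∧ k ≤ s.card ∧
      |es s c u| ≤ 2 ^ s.card * (Real.exp (-(γ * (k * δ))) * |es s c (u + k * δ)|) := by
  obtain ⟨a, ha, h1⟩ := coef (fun l => l - γ) hδ s (fun l hl => sub_nonneg.mpr (hγ l hl))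
  by_contra hcon
  push Not at hcon
  have hn := hs.card_pos
  have h2 : es s c u = ∑ k ∈ range s.card,
      a k * (Real.exp (-(γ * ((k + 1 : ℕ) * δ))) * es s c (u + (k + 1 : ℕ) * δ)) := by
    unfold es
    simp_rw [mul_sum]
    rw [sum_comm]
    apply sum_congr rfl
    intro l hl
    have h3 : ∀ k ∈ range s.card, a k * (Real.exp (-(γ * ((k + 1 : ℕ) * δ))) *
        (c l * Real.exp (l * (u + (k + 1 : ℕ) * δ)))) =
        c l * Real.exp (l * u) * (a k * Real.exp ((l - γ) * ((k + 1) * δ))) := by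
      intro k _
      have : Real.exp (-(γ * ((k + 1 : ℕ) * δ))) * Real.exp (l * (u + (k + 1 : ℕ) * δ)) =
          Real.exp (l * u) * Real.exp ((l - γ) * ((k + 1) * δ)) := by
        rw [← Real.exp_add, ← Real.exp_add]
        congr 1
        push_cast
        ring
      calc _ = a k * c l * (Real.exp (-(γ * ((k + 1 : ℕ) * δ))) *
            Real.exp (l * (u + (k + 1 : ℕ) * δ))) := by ring
        _ = _ := by rw [this]; ring
    rw [sum_congr rfl h3, ← mul_sum, h1 l hl, mul_one]
  have h3 : (0 : ℝ) < 2 ^ s.card := by positivity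
  have hpos : 0 < |es s c u| := by
    have := hcon 1 le_rfl hn
    exact lt_of_le_of_lt (by positivity) this
  have h4 : |es s c u| ≤ ∑ k ∈ range s.card, |a k| * (|es s c u| / 2 ^ s.card) := by
    conv_lhs => rw [h2]
    apply (abs_sum_le_sum_abs _ _).trans
    apply sum_le_sum
    intro k hk
    rw [abs_mul, abs_mul, abs_of_pos (Real.exp_pos _)]
    apply mul_le_mul_of_nonneg_left _ (abs_nonneg _)
    rw [le_div_iff₀ h3]
    have := hcon (k + 1) (by omega) (mem_range.mp hk)
    linarith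
  rw [← sum_mul] at h4
  have h5 : (∑ k ∈ range s.card, |a k|) * (|es s c u| / 2 ^ s.card) ≤
      (2 ^ s.card - 1) * (|es s c u| / 2 ^ s.card) :=
    mul_le_mul_of_nonneg_right ha (by positivity)
  have h6 : (2 ^ s.card - 1) * (|es s c u| / 2 ^ s.card) = |es s c u| - |es s c u| / 2 ^ s.card := by
    field_simp
  have h7 : 0 < |es s c u| / 2 ^ s.card := by positivity
  linarith

theorem es_neg (s : Finset ℝ) (c : ℝ → ℝ) (u : ℝ) :
    es s c (-u) = es (s.image (fun l => -l)) (fun l => c (-l)) u := by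
  unfold es
  rw [sum_image (fun x _ y _ h => neg_injective h)]
  apply sum_congr rfl
  intro l _
  simp

/-- Turan's lemma, backward -/
theorem turan_le {s : Finset ℝ} (hs : s.Nonempty) (c : ℝ → ℝ) {γ : ℝ} (hγ : ∀ l ∈ s, l ≤ γ)
    {δ : ℝ} (hδ : 0 < δ) (u : ℝ) : ∃ k : ℕ, 1 ≤ k ∧ k ≤ s.card ∧
      |es s c u| ≤ 2 ^ s.card * (Real.exp (γ * (k * δ)) * |es s c (u - k * δ)|) := by
  have hcard : (s.image (fun l => -l)).card = s.card :=
    card_image_of_injective _ neg_injective
  obtain ⟨k, hk1, hk2, h⟩ := turan_ge (s := s.image (fun l => -l)) (hs.image _)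
    (fun l => c (-l)) (γ := -γ) (by
      intro l hl
      rw [mem_image] at hl
      obtain ⟨x, hx, rfl⟩ := hl
      linarith [hγ x hx]) hδ (-u)
  rw [← es_neg, ← es_neg, hcard, neg_neg] at h
  rw [hcard] at hk2
  refine ⟨k, hk1, hk2, ?_⟩
  convert h using 4
  · ring
  · congr 1; ring

theorem exp_big (t : ℕ) : 9 * (4 : ℝ) ^ t ≤ Real.exp (2 * t + 3) := by
  have h1 : (2.7 : ℝ) < Real.exp 1 := by
    have := Real.exp_one_gt_d9
    linarith
  have h2 : Real.exp (2 * t + 3) = (Real.exp 1 ^ 2) ^ t * Real.exp 1 ^ 3 := by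
    rw [← pow_mul, ← pow_add, ← Real.exp_nat_mul]
    congr 1
    push_cast
    ring
  rw [h2]
  have h3 : (4 : ℝ) ^ t ≤ (Real.exp 1 ^ 2) ^ t := by
    apply pow_le_pow_left₀ (by norm_num)
    nlinarith
  have h4 : (9 : ℝ) ≤ Real.exp 1 ^ 3 := by
    have h5 : (2.7 : ℝ) ^ 3 ≤ Real.exp 1 ^ 3 := pow_le_pow_left₀ (by norm_num) h1.le 3
    have h6 : (2.7 : ℝ) ^ 3 = 19.683 := by norm_num
    rw [h6] at h5
    linarith
  calc 9 * (4 : ℝ) ^ t = 4 ^ t * 9 := by ring
    _ ≤ (Real.exp 1 ^ 2) ^ t * Real.exp 1 ^ 3 :=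
        mul_le_mul h3 h4 (by norm_num) (by positivity)

/-- the zone in which two exponential sums with separated exponents are comparable is short -/
theorem middle {sL sH : Finset ℝ} {cL cH : ℝ → ℝ} (hL : sL.Nonempty) (hH : sH.Nonempty) {t : ℕ}
    (htL : sL.card ≤ t) (htH : sH.card ≤ t) {α Δ : ℝ} (hΔ : 0 < Δ) (h1 : ∀ l ∈ sL, l ≤ α)
    (h2 : ∀ l ∈ sH, α + Δ ≤ l) {a b : ℝ} (hab : a < b)
    (h : ∀ u ∈ Set.Icc a b, |es sL cL u| ≤ 2 * |es sH cH u| ∧ |es sH cH u| ≤ 2 * |es sL cL u|)
    (hne : ∃ u ∈ Set.Icc a b, es sL cL u ≠ 0) :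
    Δ * (b - a) ≤ ((t : ℝ) ^ 2 + t) * (2 * t + 3) := by
  by_contra hcon
  push Not at hcon
  have ht : 1 ≤ t := le_trans hL.card_pos htL
  have ht' : (1 : ℝ) ≤ t := by exact_mod_cast ht
  have ht0 : (0 : ℝ) < t := by linarith
  set ℓ := (2 * (t : ℝ) + 3) / Δ with hℓ
  have hℓ0 : 0 < ℓ := by positivity
  have hlong : ((t : ℝ) ^ 2 + t) * ℓ < b - a := by
    rw [hℓ, mul_div_assoc', div_lt_iff₀ hΔ]
    linarith
  set FL : ℝ → ℝ := fun u => |es sL cL u| * Real.exp (-α * u) with hFL
  set FH : ℝ → ℝ := fun u => |es sH cH u| * Real.exp (-α * u) with hFH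
  have hFLH : ∀ u ∈ Set.Icc a b, FL u ≤ 2 * FH u ∧ FH u ≤ 2 * FL u := by
    intro u hu
    have := h u hu
    have he := Real.exp_pos (-α * u)
    constructor
    · rw [hFL, hFH]; simp only; nlinarith [this.1]
    · rw [hFL, hFH]; simp only; nlinarith [this.2]
  have hFL0 : ∀ u, 0 ≤ FL u := fun u => by rw [hFL]; positivity
  -- growth of FH
  have hgrow : ∀ u, ∃ k : ℕ, 1 ≤ k ∧ k ≤ t ∧ 9 * 2 ^ t * FH u ≤ FH (u + k * ℓ) := by
    intro u
    obtain ⟨k, hk1, hk2, hk⟩ := turan_ge hH cH h2 hℓ0 u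
    refine ⟨k, hk1, hk2.trans htH, ?_⟩
    have hk' : (1 : ℝ) ≤ k := by exact_mod_cast hk1
    have e1 : Real.exp (-(Δ * (k * ℓ))) ≤ 1 / (9 * 4 ^ t) := by
      have : (2 * (t : ℝ) + 3) ≤ Δ * (k * ℓ) := by
        have : Δ * ℓ = 2 * t + 3 := by rw [hℓ]; field_simp
        nlinarith
      calc Real.exp (-(Δ * (k * ℓ))) ≤ Real.exp (-(2 * (t : ℝ) + 3)) :=
            Real.exp_le_exp.mpr (by linarith)
        _ = 1 / Real.exp (2 * t + 3) := by rw [Real.exp_neg]; simp
        _ ≤ 1 / (9 * 4 ^ t) := one_div_le_one_div_of_le (by positivity) (exp_big t)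
    have e2 : (2 : ℝ) ^ sH.card ≤ 2 ^ t := pow_le_pow_right₀ (by norm_num) htH
    have e3 : FH u ≤ 2 ^ t * (1 / (9 * 4 ^ t)) * FH (u + k * ℓ) := by
      rw [hFH]
      simp only
      calc |es sH cH u| * Real.exp (-α * u)
          ≤ (2 ^ sH.card * (Real.exp (-((α + Δ) * (k * ℓ))) * |es sH cH (u + k * ℓ)|)) *
            Real.exp (-α * u) := mul_le_mul_of_nonneg_right hk (Real.exp_pos _).le
        _ = 2 ^ sH.card * Real.exp (-(Δ * (k * ℓ))) *
            (|es sH cH (u + k * ℓ)| * Real.exp (-α * (u + k * ℓ))) := by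
            rw [show -((α + Δ) * (k * ℓ)) = -(Δ * (k * ℓ)) + (-(α * (k * ℓ))) by ring,
              show -α * (u + k * ℓ) = -(α * (k * ℓ)) + -α * u by ring, Real.exp_add, Real.exp_add]
            ring
        _ ≤ 2 ^ t * (1 / (9 * 4 ^ t)) * (|es sH cH (u + k * ℓ)| * Real.exp (-α * (u + k * ℓ))) := by
            apply mul_le_mul_of_nonneg_right _ (by positivity)
            exact mul_le_mul e2 e1 (Real.exp_pos _).le (by positivity)
    have e4 : (4 : ℝ) ^ t = 2 ^ t * 2 ^ t := by rw [← mul_pow]; norm_num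
    rw [e4] at e3
    have e5 : (0 : ℝ) < 2 ^ t := by positivity
    have e6 : 2 ^ t * (1 / (9 * (2 ^ t * 2 ^ t))) * FH (u + k * ℓ) = FH (u + k * ℓ) / (9 * 2 ^ t) := by
      field_simp
    rw [e6, le_div_iff₀ (by positivity)] at e3
    linarith
  -- backward control of FL
  have hback : ∀ u L, 0 < L → ∃ k : ℕ, 1 ≤ k ∧ k ≤ t ∧ FL u ≤ 2 ^ t * FL (u - k * L) := by
    intro u L hL0
    obtain ⟨k, hk1, hk2, hk⟩ := turan_le hL cL h1 hL0 u
    refine ⟨k, hk1, hk2.trans htL, ?_⟩
    have e2 : (2 : ℝ) ^ sL.card ≤ 2 ^ t := pow_le_pow_right₀ (by norm_num) htL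
    rw [hFL]
    simp only
    calc |es sL cL u| * Real.exp (-α * u)
        ≤ (2 ^ sL.card * (Real.exp (α * (k * L)) * |es sL cL (u - k * L)|)) *
          Real.exp (-α * u) := mul_le_mul_of_nonneg_right hk (Real.exp_pos _).le
      _ = 2 ^ sL.card * (|es sL cL (u - k * L)| * Real.exp (-α * (u - k * L))) := by
          rw [show -α * (u - k * L) = α * (k * L) + -α * u by ring, Real.exp_add]
          ring
      _ ≤ 2 ^ t * (|es sL cL (u - k * L)| * Real.exp (-α * (u - k * L))) :=
          mul_le_mul_of_nonneg_right e2 (by positivity)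
  -- maximum point
  have hFLc : ContinuousOn FL (Set.Icc a b) := by
    apply Continuous.continuousOn
    exact (continuous_es _ _).abs.mul (Real.continuous_exp.comp (continuous_const.mul continuous_id))
  obtain ⟨um, hum, hmax⟩ := isCompact_Icc.exists_isMaxOn ⟨a, le_refl _, hab.le⟩ hFLc
  have hmax' : ∀ u ∈ Set.Icc a b, FL u ≤ FL um := fun u hu => hmax hu
  have hM : 0 < FL um := by
    obtain ⟨u, hu, hu0⟩ := hne
    have : 0 < FL u := by rw [hFL]; positivity
    exact this.trans_le (hmax' u hu)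
  have h2t : (1 : ℝ) ≤ 2 ^ t := one_le_pow₀ (by norm_num)
  by_cases hcase : um + t * ℓ ≤ b
  · obtain ⟨k, hk1, hk2, hk⟩ := hgrow um
    have hk2' : (k : ℝ) ≤ t := by exact_mod_cast hk2
    have hk1' : (0 : ℝ) ≤ k := by positivity
    have hmem : um + k * ℓ ∈ Set.Icc a b := by
      constructor
      · have := hum.1
        nlinarith
      · nlinarith
    have e1 := (hFLH um hum).1
    have e2 := (hFLH _ hmem).2
    have e3 := hmax' _ hmem
    have e4 : FL um ≤ 2 ^ t * FL um := by nlinarith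
    nlinarith
  · push Not at hcase
    set L := (um - a) / t with hLdef
    have hL1 : t * ℓ < L := by
      rw [hLdef, lt_div_iff₀ ht0]
      nlinarith
    have hL0 : 0 < L := lt_trans (by positivity) hL1
    obtain ⟨k, hk1, hk2, hk⟩ := hback um L hL0
    have hk2' : (k : ℝ) ≤ t := by exact_mod_cast hk2
    have hk1' : (1 : ℝ) ≤ k := by exact_mod_cast hk1
    have hLt : t * L = um - a := by rw [hLdef]; field_simp
    have hmem' : um - k * L ∈ Set.Icc a b := by
      constructor
      · nlinarith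
      · have := hum.2
        nlinarith
    obtain ⟨j, hj1, hj2, hj⟩ := hgrow (um - k * L)
    have hj2' : (j : ℝ) ≤ t := by exact_mod_cast hj2
    have hj1' : (0 : ℝ) ≤ j := by positivity
    have hmem'' : um - k * L + j * ℓ ∈ Set.Icc a b := by
      constructor
      · have := hmem'.1
        nlinarith
      · have := hum.2
        nlinarith
    have e1 := (hFLH _ hmem').1
    have e2 := (hFLH _ hmem'').2
    have e3 := hmax' _ hmem''
    nlinarith

end Pool.Agent.H189R2.Tau
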