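import Pool.Agent.H189R2.Tau.Chain
import Pool.Agent.H189R2.Tau.Turan

/-! Local models of exponential sums: outside `t^3` points, a sum of `t` exponentials is comparable,
up to a factor `exp (4 t^4)`, to an exponential times a polynomial of degree at most `t - 1`. -/

set_option autoImplicit false

namespace Pool.Agent.H189R2.Tau

open Finset

theorem exists_gap : ∀ (n : ℕ) (s : Finset ℝ), s.card = n + 2 → ∃ x ∈ s, ∃ y ∈ s, x < y ∧
    (∀ z ∈ s, z ≤ x ∨ y ≤ z) ∧ ∀ p ∈ s, ∀ q ∈ s, q - p ≤ (n + 1) * (y - x) := by
  intro n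
  induction n with
  | zero =>
    intro s hs
    obtain ⟨x, y, hxy, rfl⟩ := Finset.card_eq_two.mp hs
    rcases lt_or_gt_of_ne hxy with h | h
    · refine ⟨x, by simp, y, by simp, h, ?_, ?_⟩
      · intro z hz
        simp only [mem_insert, mem_singleton] at hz
        rcases hz with rfl | rfl
        · left; exact le_rfl
        · right; exact le_rfl
      · intro p hp q hq
        simp only [mem_insert, mem_singleton] at hp hq
        push_cast
        rcases hp with rfl | rfl <;> rcases hq with rfl | rfl <;> linarith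
    · refine ⟨y, by simp, x, by simp, h, ?_, ?_⟩
      · intro z hz
        simp only [mem_insert, mem_singleton] at hz
        rcases hz with rfl | rfl
        · right; exact le_rfl
        · left; exact le_rfl
      · intro p hp q hq
        simp only [mem_insert, mem_singleton] at hp hq
        push_cast
        rcases hp with rfl | rfl <;> rcases hq with rfl | rfl <;> linarith
  | succ n ih =>
    intro s hs
    have hne : s.Nonempty := by rw [← card_pos]; omega
    set M := s.max' hne with hM
    have hMs : M ∈ s := s.max'_mem hne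
    have hcard' : (s.erase M).card = n + 2 := by rw [card_erase_of_mem hMs, hs]; rfl
    have hne' : (s.erase M).Nonempty := by rw [← card_pos]; omega
    set M' := (s.erase M).max' hne' with hM'
    have hM's : M' ∈ s.erase M := (s.erase M).max'_mem hne'
    have hM'lt : M' < M :=
      lt_of_le_of_ne (s.le_max' _ (mem_of_mem_erase hM's)) (ne_of_mem_erase hM's)
    have hle : ∀ z ∈ s.erase M, z ≤ M' := fun z hz => (s.erase M).le_max' z hz
    have hleM : ∀ z ∈ s, z ≤ M := fun z hz => s.le_max' z hz
    obtain ⟨x, hx, y, hy, hxy, hsep, hgap⟩ := ih (s.erase M) hcard'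
    have hn : (0 : ℝ) ≤ n := Nat.cast_nonneg n
    by_cases hc : M - M' ≤ y - x
    · refine ⟨x, mem_of_mem_erase hx, y, mem_of_mem_erase hy, hxy, ?_, ?_⟩
      · intro z hz
        by_cases hzM : z = M
        · right; rw [hzM]; exact hleM y (mem_of_mem_erase hy)
        · exact hsep z (mem_erase.mpr ⟨hzM, hz⟩)
      · intro p hp q hq
        push_cast
        have hyx : 0 < y - x := by linarith
        by_cases hpM : p = M
        · have := hleM q hq
          rw [hpM]
          nlinarith
        · have hp' := mem_erase.mpr ⟨hpM, hp⟩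
          have h1 := hgap p hp' M' hM's
          have h2 := hleM q hq
          nlinarith
    · push Not at hc
      refine ⟨M', mem_of_mem_erase hM's, M, hMs, hM'lt, ?_, ?_⟩
      · intro z hz
        by_cases hzM : z = M
        · right; rw [hzM]
        · left; exact hle z (mem_erase.mpr ⟨hzM, hz⟩)
      · intro p hp q hq
        push_cast
        have hyx : 0 < M - M' := by linarith
        by_cases hpM : p = M
        · have := hleM q hq
          rw [hpM]
          nlinarith
        · have hp' := mem_erase.mpr ⟨hpM, hp⟩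
          have h1 := hgap p hp' M' hM's
          have h2 := hleM q hq
          nlinarith

theorem Mdl.mono {f : ℝ → ℝ} {a b : ℝ} {d d' : ℕ} {β κ κ' : ℝ} (h : Mdl f a b d β κ) (hd : d ≤ d')
    (hκ : κ ≤ κ') : Mdl f a b d' β κ' := by
  obtain ⟨A, m, hA, hm, h⟩ := h
  refine ⟨A, m, hA.trans hd, hm, fun u hu => ?_⟩
  obtain ⟨h1, h2, h3⟩ := h u hu
  refine ⟨h1, h2, h3.trans ?_⟩
  apply mul_le_mul_of_nonneg_right (Real.exp_le_exp.mpr hκ)
  positivity

/-- adding a function at most half as large -/
theorem Mdl.add_small {f g h : ℝ → ℝ} {a b : ℝ} {d : ℕ} {β κ : ℝ} (H : Mdl f a b d β κ)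
    (hh : ∀ u ∈ Set.Ioo a b, h u = f u + g u) (hg : ∀ u ∈ Set.Ioo a b, 2 * |g u| ≤ |f u|) :
    Mdl h a b d β (κ + 2) := by
  obtain ⟨A, m, hA, hm, H⟩ := H
  refine ⟨A, m / 2, hA, by positivity, fun u hu => ?_⟩
  obtain ⟨h1, h2, h3⟩ := H u hu
  have h4 := hg u hu
  have h5 : |h u| ≤ |f u| + |g u| := by rw [hh u hu]; exact abs_add_le _ _
  have h6 : |f u| - |g u| ≤ |h u| := by
    rw [hh u hu]
    have := abs_sub_abs_le_abs_sub (f u) (-g u)
    rw [abs_neg, sub_neg_eq_add] at this
    exact this
  refine ⟨h1, by nlinarith, ?_⟩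
  have h7 : (3 : ℝ) ≤ Real.exp 2 := by
    have := Real.add_one_le_exp (2 : ℝ)
    linarith
  have h8 : 0 ≤ Real.exp κ * (m * (A.eval u * Real.exp (β * u))) := by positivity
  calc |h u| ≤ 3 / 2 * |f u| := by linarith
    _ ≤ 3 / 2 * (Real.exp κ * (m * (A.eval u * Real.exp (β * u)))) := by linarith
    _ ≤ Real.exp 2 / 2 * (Real.exp κ * (m * (A.eval u * Real.exp (β * u)))) := by nlinarith
    _ = Real.exp (κ + 2) * (m / 2 * (A.eval u * Real.exp (β * u))) := by
        rw [Real.exp_add]; ring

theorem es_split (s : Finset ℝ) (c : ℝ → ℝ) {x y : ℝ} (hxy : x < y) (hsep : ∀ z ∈ s, z ≤ x ∨ y ≤ z)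
    (p q u : ℝ) : es s (fun l => (if l ≤ x then p else q) * c l) u =
      p * es (s.filter (fun l => l ≤ x)) c u + q * es (s.filter (fun l => y ≤ l)) c u := by
  unfold es
  have h1 : s.filter (fun l => y ≤ l) = s.filter (fun l => ¬ l ≤ x) := by
    apply filter_congr
    intro l hl
    constructor
    · intro h; push Not; linarith
    · intro h; exact (hsep l hl).resolve_left h
  rw [h1, mul_sum, mul_sum, ← Finset.sum_filter_add_sum_filter_not s (fun l => l ≤ x)]
  congr 1
  · apply sum_congr rfl
    intro l hl
    simp only [if_pos (mem_filter.mp hl).2]; ring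
  · apply sum_congr rfl
    intro l hl
    simp only [if_neg (mem_filter.mp hl).2]; ring

/-- local models -/
theorem local_models : ∀ (t : ℕ) (s : Finset ℝ) (c : ℝ → ℝ), s.card = t → s.Nonempty →
    (∀ l ∈ s, c l ≠ 0) → ∃ Z : Finset ℝ, Z.card ≤ t ^ 3 ∧ ∀ a b : ℝ, a < b →
      Disjoint (Set.Ioo a b) (Z : Set ℝ) →
      ∃ β : ℝ, Mdl (es s c) a b (t - 1) β (4 * (t : ℝ) ^ 4) := by
  intro t
  induction t using Nat.strong_induction_on with
  | _ t ih =>
    intro s c hcard hs hc
    have ht := hs.card_pos
    rw [hcard] at ht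
    by_cases ht1 : t = 1
    · subst ht1
      refine ⟨∅, by simp, ?_⟩
      intro a b hab _
      obtain ⟨l, rfl⟩ := Finset.card_eq_one.mp hcard
      refine ⟨l, 1, |c l|, by simp, abs_pos.mpr (hc l (by simp)), ?_⟩
      intro u _
      have h1 : (1 : ℝ) ≤ Real.exp (4 * ((1 : ℕ) : ℝ) ^ 4) := Real.one_le_exp (by positivity)
      have h2 : 0 ≤ |c l| * Real.exp (l * u) := by positivity
      simp only [es, sum_singleton, abs_mul, abs_of_pos (Real.exp_pos _), Polynomial.eval_one,
        one_mul]
      exact ⟨one_pos, le_rfl, by nlinarith⟩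
    · have ht2 : 2 ≤ t := by omega
      obtain ⟨n, rfl⟩ : ∃ n, t = n + 2 := ⟨t - 2, by omega⟩
      obtain ⟨x, hx, y, hy, hxy, hsep, hgap⟩ := exists_gap n s hcard
      set sL := s.filter (fun l => l ≤ x) with hsL
      set sH := s.filter (fun l => y ≤ l) with hsH
      have hLne : sL.Nonempty := ⟨x, by simp [hsL, hx]⟩
      have hHne : sH.Nonempty := ⟨y, by simp [hsH, hy]⟩
      have hcards : sL.card + sH.card = n + 2 := by
        have h1 : sH = s.filter (fun l => ¬ l ≤ x) := by
          rw [hsH]
          apply filter_congr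
          intro l hl
          constructor
          · intro h; push Not; linarith
          · intro h; exact (hsep l hl).resolve_left h
        rw [h1, hsL, ← hcard]
        exact Finset.card_filter_add_card_filter_not (fun l => l ≤ x)
      have hLpos := hLne.card_pos
      have hHpos := hHne.card_pos
      have hcL : ∀ l ∈ sL, c l ≠ 0 := fun l hl => hc l (mem_filter.mp hl).1
      have hcH : ∀ l ∈ sH, c l ≠ 0 := fun l hl => hc l (mem_filter.mp hl).1
      obtain ⟨ZL, hZLc, hZL⟩ := ih sL.card (by omega) sL c rfl hLne hcL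
      obtain ⟨ZH, hZHc, hZH⟩ := ih sH.card (by omega) sH c rfl hHne hcH
      have hcomb : ∀ p q : ℝ, p ≠ 0 → q ≠ 0 → ∃ Z : Finset ℝ, Z.card ≤ n + 1 ∧
          ∀ u, u ∈ Z ↔ p * es sL c u + q * es sH c u = 0 := by
        intro p q hp hq
        have h1 : ZB (es s (fun l => (if l ≤ x then p else q) * c l)) (s.card - 1) := by
          apply es_zb hs
          intro l hl
          apply mul_ne_zero _ (hc l hl)
          split_ifs <;> assumption
        obtain ⟨Z, hZ1, hZ2⟩ := h1.exists_finset
        refine ⟨Z, by omega, fun u => ?_⟩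
        rw [hZ2, es_split s c hxy hsep]
      obtain ⟨Z1, hZ1c, hZ1⟩ := hcomb 1 (-2) (by norm_num) (by norm_num)
      obtain ⟨Z2, hZ2c, hZ2⟩ := hcomb 1 2 (by norm_num) (by norm_num)
      obtain ⟨Z3, hZ3c, hZ3⟩ := hcomb 2 (-1) (by norm_num) (by norm_num)
      obtain ⟨Z4, hZ4c, hZ4⟩ := hcomb 2 1 (by norm_num) (by norm_num)
      obtain ⟨Z5, hZ5c, hZ5⟩ := chain (n + 1) s c hs (by omega) hc
      refine ⟨ZL ∪ (ZH ∪ (Z1 ∪ (Z2 ∪ (Z3 ∪ (Z4 ∪ Z5))))), ?_, ?_⟩
      · have h1 : (ZL ∪ (ZH ∪ (Z1 ∪ (Z2 ∪ (Z3 ∪ (Z4 ∪ Z5)))))).card ≤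
            ZL.card + (ZH.card + (Z1.card + (Z2.card + (Z3.card + (Z4.card + Z5.card))))) := by
          refine (card_union_le _ _).trans (Nat.add_le_add_left ?_ _)
          refine (card_union_le _ _).trans (Nat.add_le_add_left ?_ _)
          refine (card_union_le _ _).trans (Nat.add_le_add_left ?_ _)
          refine (card_union_le _ _).trans (Nat.add_le_add_left ?_ _)
          refine (card_union_le _ _).trans (Nat.add_le_add_left ?_ _)
          exact card_union_le _ _
        refine h1.trans ?_
        obtain ⟨p, hp⟩ : ∃ p, sL.card = p + 1 := ⟨sL.card - 1, by omega⟩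
        obtain ⟨q, hq⟩ : ∃ q, sH.card = q + 1 := ⟨sH.card - 1, by omega⟩
        have hnpq : n = p + q := by omega
        rw [hp] at hZLc
        rw [hq] at hZHc
        subst hnpq
        have h2 : (p + 1) ^ 3 + (q + 1) ^ 3 + 4 * (p + q + 1) + (p + q + 1) * (p + q + 1 + 1) ≤
            (p + q + 2) ^ 3 := by
          ring_nf
          nlinarith [Nat.zero_le (p * q), Nat.zero_le (p ^ 2 * q), Nat.zero_le (p * q ^ 2),
            Nat.zero_le (p ^ 2), Nat.zero_le (q ^ 2)]
        omega
      · intro a b hab hdisj
        simp only [coe_union, Set.disjoint_union_right] at hdisj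
        obtain ⟨dL, dH, d1, d2, d3, d4, d5⟩ := hdisj
        have hsum : ∀ u, es s c u = es sL c u + es sH c u := by
          intro u
          have := es_split s c hxy hsep 1 1 u
          simp only [one_mul, ite_self] at this
          exact this
        have hcont1 : ContinuousOn (fun u => |es sL c u| - 2 * |es sH c u|) (Set.Ioo a b) :=
          (((continuous_es _ _).abs).sub (continuous_const.mul (continuous_es _ _).abs)).continuousOn
        have hcont2 : ContinuousOn (fun u => |es sH c u| - 2 * |es sL c u|) (Set.Ioo a b) :=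
          (((continuous_es _ _).abs).sub (continuous_const.mul (continuous_es _ _).abs)).continuousOn
        have hne1 : ∀ u ∈ Set.Ioo a b, |es sL c u| - 2 * |es sH c u| ≠ 0 := by
          intro u hu h0
          have h1 : |es sL c u| = |2 * es sH c u| := by rw [abs_mul]; norm_num; linarith
          rcases abs_eq_abs.mp h1 with h | h
          · exact Set.disjoint_left.mp d1 hu ((hZ1 u).mpr (by linarith))
          · exact Set.disjoint_left.mp d2 hu ((hZ2 u).mpr (by linarith))
        have hne2 : ∀ u ∈ Set.Ioo a b, |es sH c u| - 2 * |es sL c u| ≠ 0 := by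
          intro u hu h0
          have h1 : |es sH c u| = |2 * es sL c u| := by rw [abs_mul]; norm_num; linarith
          rcases abs_eq_abs.mp h1 with h | h
          · exact Set.disjoint_left.mp d3 hu ((hZ3 u).mpr (by linarith))
          · exact Set.disjoint_left.mp d4 hu ((hZ4 u).mpr (by linarith))
        have hpowL : 4 * (sL.card : ℝ) ^ 4 + 2 ≤ 4 * ((n + 2 : ℕ) : ℝ) ^ 4 := by
          have h1 : (sL.card : ℝ) + 1 ≤ ((n + 2 : ℕ) : ℝ) := by exact_mod_cast (by omega)
          have h2 : (0 : ℝ) ≤ sL.card := Nat.cast_nonneg _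
          have h3 : ((sL.card : ℝ) + 1) ^ 4 ≤ ((n + 2 : ℕ) : ℝ) ^ 4 := pow_le_pow_left₀ (by linarith) h1 4
          nlinarith [pow_nonneg h2 2, pow_nonneg h2 3]
        have hpowH : 4 * (sH.card : ℝ) ^ 4 + 2 ≤ 4 * ((n + 2 : ℕ) : ℝ) ^ 4 := by
          have h1 : (sH.card : ℝ) + 1 ≤ ((n + 2 : ℕ) : ℝ) := by exact_mod_cast (by omega)
          have h2 : (0 : ℝ) ≤ sH.card := Nat.cast_nonneg _
          have h3 : ((sH.card : ℝ) + 1) ^ 4 ≤ ((n + 2 : ℕ) : ℝ) ^ 4 := pow_le_pow_left₀ (by linarith) h1 4
          nlinarith [pow_nonneg h2 2, pow_nonneg h2 3]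
        rcases sign_const hcont1 hne1 with hA | hA
        · -- dominated by L
          obtain ⟨β, hβ⟩ := hZL a b hab dL
          refine ⟨β, (hβ.add_small (g := es sH c) (fun u _ => hsum u) ?_).mono (by omega) hpowL⟩
          intro u hu
          have := hA u hu
          linarith
        · rcases sign_const hcont2 hne2 with hB | hB
          · obtain ⟨β, hβ⟩ := hZH a b hab dH
            refine ⟨β, (hβ.add_small (g := es sL c) (fun u _ => by rw [hsum u, add_comm]) ?_).mono
              (by omega) hpowH⟩
            intro u hu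
            have := hB u hu
            linarith
          · -- middle
            have hclosed : ∀ u ∈ Set.Icc a b, |es sL c u| ≤ 2 * |es sH c u| ∧
                |es sH c u| ≤ 2 * |es sL c u| := by
              intro u hu
              rw [← closure_Ioo hab.ne] at hu
              have hcl : IsClosed {u | |es sL c u| ≤ 2 * |es sH c u| ∧
                  |es sH c u| ≤ 2 * |es sL c u|} := by
                apply IsClosed.inter
                · exact isClosed_le (continuous_es _ _).abs (continuous_const.mul (continuous_es _ _).abs)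
                · exact isClosed_le (continuous_es _ _).abs (continuous_const.mul (continuous_es _ _).abs)
              have hsub : Set.Ioo a b ⊆ {u | |es sL c u| ≤ 2 * |es sH c u| ∧
                  |es sH c u| ≤ 2 * |es sL c u|} := by
                intro v hv
                have h1 := hA v hv
                have h2 := hB v hv
                exact ⟨by linarith, by linarith⟩
              exact closure_minimal hsub hcl hu
            have hmid : (y - x) * (b - a) ≤ (((n + 2 : ℕ) : ℝ) ^ 2 + (n + 2 : ℕ)) *
                (2 * (n + 2 : ℕ) + 3) := by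
              apply middle hLne hHne (t := n + 2) (by omega) (by omega) (α := x) (by linarith)
                (fun l hl => (mem_filter.mp hl).2) (fun l hl => by
                  have := (mem_filter.mp hl).2
                  linarith) hab hclosed
              refine ⟨(a + b) / 2, ⟨by linarith, by linarith⟩, ?_⟩
              intro h0
              have h1 := hB ((a + b) / 2) ⟨by linarith, by linarith⟩
              rw [h0, abs_zero] at h1
              have := abs_nonneg (es sH c ((a + b) / 2))
              linarith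
            refine ⟨s.min' hs, (hZ5 a b hab d5).mono (by omega) ?_⟩
            have h1 := hgap _ (s.min'_mem hs) _ (s.max'_mem hs)
            have h2 : (s.max' hs - s.min' hs) * (b - a) ≤ (n + 1) * ((y - x) * (b - a)) := by
              have := mul_le_mul_of_nonneg_right h1 (by linarith : 0 ≤ b - a)
              linarith
            have hn : (0 : ℝ) ≤ n := Nat.cast_nonneg n
            calc _ ≤ (n + 1) * ((y - x) * (b - a)) := h2
              _ ≤ (n + 1) * ((((n + 2 : ℕ) : ℝ) ^ 2 + (n + 2 : ℕ)) * (2 * (n + 2 : ℕ) + 3)) :=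
                  mul_le_mul_of_nonneg_left hmid (by linarith)
              _ ≤ 4 * ((n + 2 : ℕ) : ℝ) ^ 4 := by
                  push_cast
                  nlinarith [pow_nonneg hn 2, pow_nonneg hn 3, pow_nonneg hn 4]

end Pool.Agent.H189R2.Tau
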