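import Mathlib

/-! Rolle counting and the number of real zeros of exponential polynomials. -/

set_option autoImplicit false

namespace Pool.Agent.H189R2.Tau

open Finset
open Polynomial (eval derivative C eval_add eval_mul eval_C)

/-- every finite set of zeros of `f` has at most `n` elements -/
def ZB (f : ℝ → ℝ) (n : ℕ) : Prop := ∀ T : Finset ℝ, (∀ x ∈ T, f x = 0) → T.card ≤ n

theorem ZB.mono {f : ℝ → ℝ} {n m : ℕ} (h : ZB f n) (hnm : n ≤ m) : ZB f m :=
  fun T hT => (h T hT).trans hnm

theorem ZB.congr {f g : ℝ → ℝ} {n : ℕ} (h : ZB f n) (hfg : ∀ x, g x = 0 → f x = 0) : ZB g n :=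
  fun T hT => h T (fun x hx => hfg x (hT x hx))

/-- Rolle -/
theorem ZB.of_deriv {f f' : ℝ → ℝ} (hd : ∀ x, HasDerivAt f (f' x) x) {n : ℕ} (h : ZB f' n) :
    ZB f (n + 1) := by
  intro T hT
  by_contra hcon
  push Not at hcon
  obtain ⟨T', hT'T, hcard⟩ := Finset.exists_subset_card_eq (s := T) (n := n + 2) (by omega)
  let e : Fin (n + 2) ↪o ℝ := T'.orderEmbOfFin hcard
  have he : ∀ i, f (e i) = 0 := fun i => hT _ (hT'T (T'.orderEmbOfFin_mem hcard i))
  have key : ∀ i : Fin (n + 1), ∃ c ∈ Set.Ioo (e i.castSucc) (e i.succ), f' c = 0 := by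
    intro i
    have hlt : e i.castSucc < e i.succ := e.strictMono (Fin.castSucc_lt_succ)
    apply exists_hasDerivAt_eq_zero hlt
    · exact fun x _ => (hd x).continuousAt.continuousWithinAt
    · rw [he, he]
    · exact fun x _ => hd x
  choose ξ hξ hξ0 using key
  have hmono : StrictMono ξ := by
    intro i j hij
    have h1 := (hξ i).2
    have h2 := (hξ j).1
    have h3 : e i.succ ≤ e j.castSucc := by
      apply e.monotone
      rw [Fin.le_def]
      simp only [Fin.val_succ, Fin.val_castSucc]
      exact hij
    linarith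
  have h4 := h (univ.map ⟨ξ, hmono.injective⟩) (by
    intro x hx
    simp only [mem_map, mem_univ, Function.Embedding.coeFn_mk, true_and] at hx
    obtain ⟨i, rfl⟩ := hx
    exact hξ0 i)
  simp at h4

theorem ZB.finite {f : ℝ → ℝ} {n : ℕ} (h : ZB f n) : {x | f x = 0}.Finite := by
  by_contra hcon
  obtain ⟨T, hT, hc⟩ := Set.Infinite.exists_subset_card_eq (s := {x | f x = 0}) hcon (n + 1)
  have := h T (fun x hx => hT hx)
  omega

/-- the finite set of zeros -/
theorem ZB.exists_finset {f : ℝ → ℝ} {n : ℕ} (h : ZB f n) :
    ∃ Z : Finset ℝ, Z.card ≤ n ∧ ∀ x, x ∈ Z ↔ f x = 0 :=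
  ⟨h.finite.toFinset, h _ (fun x hx => by simpa using hx), fun x => by simp⟩

/-- exponential polynomial -/
noncomputable def ep (s : Finset ℝ) (p : ℝ → Polynomial ℝ) (u : ℝ) : ℝ :=
  ∑ l ∈ s, (p l).eval u * Real.exp (l * u)

/-- exponential sum -/
noncomputable def es (s : Finset ℝ) (c : ℝ → ℝ) (u : ℝ) : ℝ := ∑ l ∈ s, c l * Real.exp (l * u)

theorem es_eq_ep (s : Finset ℝ) (c : ℝ → ℝ) : es s c = ep s (fun l => Polynomial.C (c l)) := by
  ext u; simp [es, ep]

theorem hasDerivAt_ep (s : Finset ℝ) (p : ℝ → Polynomial ℝ) (u : ℝ) :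
    HasDerivAt (ep s p) (ep s (fun l => (p l).derivative + Polynomial.C l * p l) u) u := by
  unfold ep
  apply HasDerivAt.fun_sum
  intro l _
  have h1 : HasDerivAt (fun u => Real.exp (l * u)) (Real.exp (l * u) * l) u := by
    simpa using ((hasDerivAt_id u).const_mul l).exp
  have h2 := ((p l).hasDerivAt u).fun_mul h1
  have h3 : eval u (derivative (p l) + C l * p l) * Real.exp (l * u) =
      eval u (derivative (p l)) * Real.exp (l * u) + eval u (p l) * (Real.exp (l * u) * l) := by
    simp only [eval_add, eval_mul, eval_C]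
    ring
  rw [h3]
  exact h2

theorem hasDerivAt_es (s : Finset ℝ) (c : ℝ → ℝ) (u : ℝ) :
    HasDerivAt (es s c) (es s (fun l => l * c l) u) u := by
  unfold es
  apply HasDerivAt.fun_sum
  intro l _
  have h1 : HasDerivAt (fun u => Real.exp (l * u)) (Real.exp (l * u) * l) u := by
    simpa using ((hasDerivAt_id u).const_mul l).exp
  have h2 := h1.const_mul (c l)
  have h3 : l * c l * Real.exp (l * u) = c l * (Real.exp (l * u) * l) := by ring
  rw [h3]
  exact h2

theorem continuous_es (s : Finset ℝ) (c : ℝ → ℝ) : Continuous (es s c) :=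
  continuous_iff_continuousAt.mpr (fun u => (hasDerivAt_es s c u).continuousAt)

theorem hasDerivAt_twist (s : Finset ℝ) (p : ℝ → Polynomial ℝ) (l₀ u : ℝ) :
    HasDerivAt (fun u => Real.exp (-l₀ * u) * ep s p u)
      (Real.exp (-l₀ * u) * ep s (fun l => (p l).derivative + Polynomial.C (l - l₀) * p l) u) u := by
  have h1 : HasDerivAt (fun u => Real.exp (-l₀ * u)) (Real.exp (-l₀ * u) * (-l₀)) u := by
    simpa using ((hasDerivAt_id u).const_mul (-l₀)).exp
  have h2 := h1.fun_mul (hasDerivAt_ep s p u)
  have h3 : Real.exp (-l₀ * u) * ep s (fun l => derivative (p l) + C (l - l₀) * p l) u =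
      Real.exp (-l₀ * u) * -l₀ * ep s p u +
        Real.exp (-l₀ * u) * ep s (fun l => derivative (p l) + C l * p l) u := by
    unfold ep
    rw [mul_sum, mul_sum, mul_sum, ← sum_add_distrib]
    apply sum_congr rfl
    intro l _
    simp only [eval_add, eval_mul, eval_C]
    ring
  rw [h3]
  exact h2

theorem twist_ne_zero {p : Polynomial ℝ} (hp : p ≠ 0) {a : ℝ} (ha : a ≠ 0) :
    p.derivative + Polynomial.C a * p ≠ 0 := by
  intro h
  have h1 := congrArg (fun q => Polynomial.coeff q p.natDegree) h
  simp only [Polynomial.coeff_add, Polynomial.coeff_derivative, Polynomial.coeff_C_mul,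
    Polynomial.coeff_zero] at h1
  rw [Polynomial.coeff_eq_zero_of_natDegree_lt (Nat.lt_succ_self _)] at h1
  simp only [zero_mul, zero_add, mul_eq_zero, Polynomial.coeff_natDegree,
    Polynomial.leadingCoeff_eq_zero] at h1
  tauto

theorem twist_natDegree {p : Polynomial ℝ} {a : ℝ} :
    (p.derivative + Polynomial.C a * p).natDegree ≤ p.natDegree := by
  apply (Polynomial.natDegree_add_le _ _).trans
  apply max_le
  · exact (Polynomial.natDegree_derivative_le p).trans (Nat.sub_le _ _)
  · exact Polynomial.natDegree_C_mul_le _ _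

/-- an exponential polynomial has at most `∑ (deg + 1) - 1` real zeros -/
theorem ep_zb : ∀ (N : ℕ) (s : Finset ℝ) (p : ℝ → Polynomial ℝ), s.Nonempty →
    (∀ l ∈ s, p l ≠ 0) → ∑ l ∈ s, ((p l).natDegree + 1) ≤ N + 1 → ZB (ep s p) N := by
  intro N
  induction N with
  | zero =>
    intro s p hs hp hN T hT
    have hc : s.card ≤ 1 := by
      calc s.card = ∑ l ∈ s, 1 := by simp
        _ ≤ ∑ l ∈ s, ((p l).natDegree + 1) := sum_le_sum (fun _ _ => by omega)
        _ ≤ 1 := by simpa using hN
    obtain ⟨l, hl⟩ := hs
    have hs1 : s = {l} := by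
      apply Finset.eq_singleton_iff_unique_mem.mpr
      exact ⟨hl, fun x hx => Finset.card_le_one.mp hc x hx l hl⟩
    subst hs1
    simp only [sum_singleton, zero_add] at hN
    have hd : (p l).natDegree = 0 := by omega
    have hpc := Polynomial.eq_C_of_natDegree_eq_zero hd
    by_contra hcon
    have hne : T.Nonempty := by
      rw [← Finset.card_pos]; omega
    obtain ⟨x, hx⟩ := hne
    have h0 := hT x hx
    unfold ep at h0
    rw [sum_singleton, hpc, Polynomial.eval_C] at h0
    have h1 : (p l).coeff 0 ≠ 0 := by
      intro h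
      apply hp l (by simp)
      rw [hpc, h, Polynomial.C_0]
    exact mul_ne_zero h1 (Real.exp_pos _).ne' h0
  | succ N ih =>
    intro s p hs hp hN
    obtain ⟨l₀, hl₀⟩ := hs
    -- reduce to the twisted derivative
    have key : ZB (ep s (fun l => (p l).derivative + Polynomial.C (l - l₀) * p l)) N →
        ZB (ep s p) (N + 1) := by
      intro h
      have h1 : ZB (fun u => Real.exp (-l₀ * u) *
          ep s (fun l => (p l).derivative + Polynomial.C (l - l₀) * p l) u) N := by
        apply h.congr
        intro x hx
        exact (mul_eq_zero.mp hx).resolve_left (Real.exp_pos _).ne'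
      have h2 := ZB.of_deriv (fun u => hasDerivAt_twist s p l₀ u) h1
      apply h2.congr
      intro x hx
      simp [hx]
    by_cases hd : (p l₀).natDegree = 0
    · by_cases he : (s.erase l₀).Nonempty
      · apply key
        have h3 : ep s (fun l => (p l).derivative + Polynomial.C (l - l₀) * p l) =
            ep (s.erase l₀) (fun l => (p l).derivative + Polynomial.C (l - l₀) * p l) := by
          ext u
          unfold ep
          rw [← Finset.add_sum_erase s _ hl₀]
          have hpc := Polynomial.eq_C_of_natDegree_eq_zero hd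
          have : (p l₀).derivative = 0 := by rw [hpc, Polynomial.derivative_C]
          simp [this]
        rw [h3]
        apply ih _ _ he
        · intro l hl
          rw [mem_erase] at hl
          exact twist_ne_zero (hp l hl.2) (sub_ne_zero.mpr hl.1)
        · have h4 : ∑ l ∈ s.erase l₀, ((p l).natDegree + 1) + ((p l₀).natDegree + 1) =
              ∑ l ∈ s, ((p l).natDegree + 1) := Finset.sum_erase_add _ _ hl₀
          have h5 : ∑ l ∈ s.erase l₀,
              (((p l).derivative + Polynomial.C (l - l₀) * p l).natDegree + 1) ≤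
              ∑ l ∈ s.erase l₀, ((p l).natDegree + 1) :=
            sum_le_sum (fun l _ => Nat.succ_le_succ twist_natDegree)
          omega
      · intro T hT
        rw [Finset.not_nonempty_iff_eq_empty] at he
        have hs1 : s = {l₀} := by
          rw [Finset.erase_eq_empty_iff] at he
          rcases he with he | he
          · rw [he] at hl₀; simp at hl₀
          · exact he
        subst hs1
        have hpc := Polynomial.eq_C_of_natDegree_eq_zero hd
        have : T = ∅ := by
          rw [Finset.eq_empty_iff_forall_notMem]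
          intro x hx
          have h0 := hT x hx
          unfold ep at h0
          rw [sum_singleton, hpc, Polynomial.eval_C] at h0
          have h1 : (p l₀).coeff 0 ≠ 0 := by
            intro h
            apply hp l₀ (by simp)
            rw [hpc, h, Polynomial.C_0]
          exact mul_ne_zero h1 (Real.exp_pos _).ne' h0
        simp [this]
    · apply key
      apply ih _ _ ⟨l₀, hl₀⟩
      · intro l hl
        by_cases hll : l = l₀
        · subst hll
          simp only [sub_self, Polynomial.C_0, zero_mul, add_zero]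
          intro h
          exact hd (Polynomial.derivative_eq_zero.mp h)
        · exact twist_ne_zero (hp l hl) (sub_ne_zero.mpr hll)
      · rw [← Finset.sum_erase_add _ _ hl₀] at hN ⊢
        have h5 : ∑ l ∈ s.erase l₀,
            (((p l).derivative + Polynomial.C (l - l₀) * p l).natDegree + 1) ≤
            ∑ l ∈ s.erase l₀, ((p l).natDegree + 1) :=
          sum_le_sum (fun l _ => Nat.succ_le_succ twist_natDegree)
        have h6 : ((p l₀).derivative + Polynomial.C (l₀ - l₀) * p l₀).natDegree + 1 ≤
            (p l₀).natDegree := by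
          simp only [sub_self, Polynomial.C_0, zero_mul, add_zero]
          have := Polynomial.natDegree_derivative_lt (p := p l₀) hd
          omega
        omega

/-- an exponential sum with `n` terms has at most `n - 1` zeros -/
theorem es_zb {s : Finset ℝ} {c : ℝ → ℝ} (hs : s.Nonempty) (hc : ∀ l ∈ s, c l ≠ 0) :
    ZB (es s c) (s.card - 1) := by
  rw [es_eq_ep]
  apply ep_zb _ _ _ hs
  · intro l hl
    simpa using hc l hl
  · simp only [Polynomial.natDegree_C, zero_add, sum_const, smul_eq_mul, mul_one]
    have := hs.card_pos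
    omega

/-- exponential polynomial with possibly vanishing coefficients: identically zero or few zeros -/
theorem ep_zb' (s : Finset ℝ) (p : ℝ → Polynomial ℝ) (d : ℕ) (hd : ∀ l ∈ s, (p l).natDegree ≤ d) :
    (∀ u, ep s p u = 0) ∨ ZB (ep s p) (s.card * (d + 1)) := by
  classical
  by_cases h : (s.filter (fun l => p l ≠ 0)).Nonempty
  · right
    have h1 : ep s p = ep (s.filter (fun l => p l ≠ 0)) p := by
      ext u
      unfold ep
      rw [Finset.sum_filter]
      apply sum_congr rfl
      intro l _
      by_cases hp : p l = 0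
      · simp [hp]
      · simp [hp]
    rw [h1]
    apply ep_zb _ _ _ h
    · intro l hl
      exact (mem_filter.mp hl).2
    · calc ∑ l ∈ s.filter (fun l => p l ≠ 0), ((p l).natDegree + 1)
          ≤ ∑ l ∈ s.filter (fun l => p l ≠ 0), (d + 1) :=
            sum_le_sum (fun l hl => Nat.succ_le_succ (hd l (mem_filter.mp hl).1))
        _ = (s.filter (fun l => p l ≠ 0)).card * (d + 1) := by simp
        _ ≤ s.card * (d + 1) := Nat.mul_le_mul_right _ (card_filter_le _ _)
        _ ≤ s.card * (d + 1) + 1 := Nat.le_succ _
  · left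
    intro u
    rw [Finset.not_nonempty_iff_eq_empty, Finset.filter_eq_empty_iff] at h
    unfold ep
    apply sum_eq_zero
    intro l hl
    have := h hl
    push Not at this
    simp [this]

end Pool.Agent.H189R2.Tau
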